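import Pool.Agent.W_2411tw_h80.Elim

/-! Theorem I: thin pieces are well-quasi-ordered. -/

set_option autoImplicit false

open Set

namespace Pool.Agent.W2411c4

variable {Q : Type}

open Gr

/-- thin pieces: at most `K` boundary edges, partitioned into solid atoms of `W` of order at most
`M`, such that the quotient has an elimination order of width at most `k` -/
def ThinP (k M K : ℕ) (W : Set (Pc Q)) : Set (Pc Q) :=
  {P | P.n ≤ K ∧ ∃ At up rk, AtD P.G P.X At M W ∧ Elim (quo P.G At) (reps At) k up rk}

/-- **Theorem I.** -/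
theorem thin_pwo [Preorder Q] (k M K : ℕ)
    {W : Set (Pc Q)} (hW : W.PartiallyWellOrderedOn Rp) :
    (ThinP k M K W).PartiallyWellOrderedOn Rp := by
  refine ((emp_pwo (Q := Q)).union
    (thinV_pwo (k * M + K) (3 * (k * M + K) + 1) M hW)).mono ?_
  rintro P ⟨hn, At, up, rk, hA, hE⟩
  by_cases hX : P.X = ∅
  · exact Or.inl hX
  · right
    have hP := hA.part
    have hne : (reps At).Nonempty := by
      obtain ⟨x, hx⟩ := Finset.nonempty_iff_ne_empty.2 hX
      exact ⟨_, (hP.rho_mem_reps).2 hx⟩
    obtain ⟨F, hF⟩ := hE.val (M := M) (K := K) hne (by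
      intro v hv
      obtain ⟨A, hA', rfl⟩ := mem_reps.1 hv
      have h1 : ({rp A} : Finset ℕ) ⊆ reps At := by
        rw [Finset.singleton_subset_iff]
        exact hv
      rw [hP.d_quo P.G h1, hP.lift_one hA']
      exact hA.ord A hA') (by
      rw [hP.d_quo P.G (Finset.Subset.refl _), hP.lift_reps]
      rw [← P.en.n_eq]
      exact hn)
    exact ⟨At, F, hA, hF⟩

end Pool.Agent.W2411c4
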