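import Pool.Agent.W_2411tw_h80.Free

/-! The quotient of a graph by a partition of a vertex set into atoms. -/

set_option autoImplicit false

namespace Pool.Agent.W2411c4

variable {Q : Type}

open Gr

/-- `At` is a partition of `X` into nonempty sets (the atoms) -/
structure Part (X : Finset ℕ) (At : Finset (Finset ℕ)) : Prop where
  cov : ∀ x, x ∈ X ↔ ∃ A ∈ At, x ∈ A
  ne : ∀ A ∈ At, A.Nonempty
  uniq : ∀ A ∈ At, ∀ B ∈ At, ∀ x, x ∈ A → x ∈ B → A = B

open Classical in
/-- a representative -/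
noncomputable def rp (A : Finset ℕ) : ℕ := if h : A.Nonempty then h.choose else 0

theorem rp_mem {A : Finset ℕ} (h : A.Nonempty) : rp A ∈ A := by
  unfold rp
  rw [dif_pos h]
  exact h.choose_spec

open Classical in
/-- the map to the representatives -/
noncomputable def rho (At : Finset (Finset ℕ)) (x : ℕ) : ℕ :=
  if h : ∃ A, A ∈ At ∧ x ∈ A then rp h.choose else x

open Classical in
/-- the union of the atoms with representative in `M` -/
noncomputable def lift (At : Finset (Finset ℕ)) (M : Finset ℕ) : Finset ℕ :=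
  (At.filter fun A => rp A ∈ M).biUnion id

theorem mem_lift {At : Finset (Finset ℕ)} {M : Finset ℕ} {x : ℕ} :
    x ∈ lift At M ↔ ∃ A ∈ At, rp A ∈ M ∧ x ∈ A := by
  classical
  simp only [lift, Finset.mem_biUnion, Finset.mem_filter, id]
  constructor
  · rintro ⟨A, ⟨h1, h2⟩, h3⟩
    exact ⟨A, h1, h2, h3⟩
  · rintro ⟨A, h1, h2, h3⟩
    exact ⟨A, ⟨h1, h2⟩, h3⟩

theorem lift_mono {At : Finset (Finset ℕ)} {M N : Finset ℕ} (h : M ⊆ N) : lift At M ⊆ lift At N := by
  intro x hx
  obtain ⟨A, h1, h2, h3⟩ := mem_lift.1 hx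
  exact mem_lift.2 ⟨A, h1, h h2, h3⟩

/-- the set of representatives -/
noncomputable def reps (At : Finset (Finset ℕ)) : Finset ℕ := by
  classical
  exact At.image rp

theorem mem_reps {At : Finset (Finset ℕ)} {v : ℕ} : v ∈ reps At ↔ ∃ A ∈ At, rp A = v := by
  classical
  simp [reps]

/-- the quotient graph -/
noncomputable def quo (G : Gr Q) (At : Finset (Finset ℕ)) : Gr Q where
  E := G.E.filter fun e => rho At (G.a e) ≠ rho At (G.b e)
  a := fun e => rho At (G.a e)
  b := fun e => rho At (G.b e)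
  ne := fun _ he => (Finset.mem_filter.1 he).2
  lab := G.lab

theorem mem_quoE {G : Gr Q} {At : Finset (Finset ℕ)} {e : ℕ} :
    e ∈ (quo G At).E ↔ e ∈ G.E ∧ rho At (G.a e) ≠ rho At (G.b e) := Finset.mem_filter

namespace Part

variable {X : Finset ℕ} {At : Finset (Finset ℕ)}

theorem rho_eq (h : Part X At) {A : Finset ℕ} (hA : A ∈ At) {x : ℕ} (hx : x ∈ A) :
    rho At x = rp A := by
  have h1 : ∃ A, A ∈ At ∧ x ∈ A := ⟨A, hA, hx⟩
  unfold rho
  rw [dif_pos h1, h.uniq _ h1.choose_spec.1 A hA x h1.choose_spec.2 hx]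

theorem rho_out (h : Part X At) {x : ℕ} (hx : x ∉ X) : rho At x = x := by
  have h1 : ¬ ∃ A, A ∈ At ∧ x ∈ A := fun h1 => hx ((h.cov x).2 h1)
  unfold rho
  rw [dif_neg h1]

theorem rp_in (h : Part X At) {A : Finset ℕ} (hA : A ∈ At) : rp A ∈ A := rp_mem (h.ne A hA)

theorem rp_inX (h : Part X At) {A : Finset ℕ} (hA : A ∈ At) : rp A ∈ X :=
  (h.cov _).2 ⟨A, hA, h.rp_in hA⟩

theorem rp_inj (h : Part X At) {A B : Finset ℕ} (hA : A ∈ At) (hB : B ∈ At) (hAB : rp A = rp B) :
    A = B := h.uniq A hA B hB (rp A) (h.rp_in hA) (hAB ▸ h.rp_in hB)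

theorem reps_sub (h : Part X At) : reps At ⊆ X := by
  intro v hv
  obtain ⟨A, hA, rfl⟩ := mem_reps.1 hv
  exact h.rp_inX hA

theorem rho_mem_reps (h : Part X At) {x : ℕ} : rho At x ∈ reps At ↔ x ∈ X := by
  constructor
  · intro h1
    by_contra hx
    rw [h.rho_out hx] at h1
    exact hx (h.reps_sub h1)
  · intro hx
    obtain ⟨A, hA, hxA⟩ := (h.cov x).1 hx
    rw [h.rho_eq hA hxA]
    exact mem_reps.2 ⟨A, hA, rfl⟩

/-- membership in a lift, by the map to the representatives -/
theorem mem_lift' (h : Part X At) {M : Finset ℕ} (hM : M ⊆ reps At) {x : ℕ} :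
    x ∈ lift At M ↔ rho At x ∈ M := by
  constructor
  · intro hx
    obtain ⟨A, h1, h2, h3⟩ := mem_lift.1 hx
    rw [h.rho_eq h1 h3]
    exact h2
  · intro hx
    obtain ⟨A, hA, hxA⟩ := (h.cov x).1 (h.rho_mem_reps.1 (hM hx))
    rw [h.rho_eq hA hxA] at hx
    exact mem_lift.2 ⟨A, hA, hx, hxA⟩

theorem lift_sub (h : Part X At) {M : Finset ℕ} : lift At M ⊆ X := by
  intro x hx
  obtain ⟨A, h1, _, h3⟩ := mem_lift.1 hx
  exact (h.cov x).2 ⟨A, h1, h3⟩

theorem lift_reps (h : Part X At) : lift At (reps At) = X := by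
  ext x
  rw [h.mem_lift' (Finset.Subset.refl _), h.rho_mem_reps]

theorem lift_one (h : Part X At) {A : Finset ℕ} (hA : A ∈ At) : lift At {rp A} = A := by
  ext x
  rw [mem_lift]
  constructor
  · rintro ⟨B, hB, h1, hx⟩
    rw [h.rp_inj hA hB (Finset.mem_singleton.1 h1).symm]
    exact hx
  · intro hx
    exact ⟨A, hA, Finset.mem_singleton_self _, hx⟩

/-- crossing in the quotient and in the graph -/
theorem cross_quo (h : Part X At) (G : Gr Q) {M : Finset ℕ} (hM : M ⊆ reps At) {e : ℕ} :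
    (quo G At).Cross M e ↔ G.Cross (lift At M) e := by
  unfold Gr.Cross
  rw [h.mem_lift' hM, h.mem_lift' hM]
  exact Iff.rfl

theorem bd_quo (h : Part X At) (G : Gr Q) {M : Finset ℕ} (hM : M ⊆ reps At) :
    (quo G At).bd M = G.bd (lift At M) := by
  ext e
  rw [Gr.mem_bd, Gr.mem_bd, h.cross_quo G hM, mem_quoE]
  constructor
  · rintro ⟨⟨h1, _⟩, h2⟩
    exact ⟨h1, h2⟩
  · rintro ⟨h1, h2⟩
    refine ⟨⟨h1, ?_⟩, h2⟩
    have h3 := (h.cross_quo G hM).2 h2
    intro heq
    have heq' : (quo G At).a e = (quo G At).b e := heq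
    unfold Gr.Cross at h3
    rw [heq'] at h3
    tauto

theorem d_quo (h : Part X At) (G : Gr Q) {M : Finset ℕ} (hM : M ⊆ reps At) :
    (quo G At).d M = G.d (lift At M) := by
  unfold Gr.d
  rw [h.bd_quo G hM]

end Part

/-- a set between two unions of solid atoms can be changed to a union of atoms -/
theorem round_set {G : Gr Q} {At : Finset (Finset ℕ)} (hs : ∀ A ∈ At, Solid G A)
    (hu : ∀ A ∈ At, ∀ B ∈ At, ∀ x, x ∈ A → x ∈ B → A = B) {L U Z : Finset ℕ}
    (hL : ∀ A ∈ At, A ⊆ L ∨ Disjoint A L) (hU : ∀ A ∈ At, A ⊆ U ∨ Disjoint A U) (hLZ : L ⊆ Z)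
    (hZU : Z ⊆ U) : ∃ Z', L ⊆ Z' ∧ Z' ⊆ U ∧ G.d Z' ≤ G.d Z ∧
      (∀ A ∈ At, A ⊆ Z' ∨ Disjoint A Z') ∧ ∀ x, (∀ A ∈ At, x ∉ A) → (x ∈ Z' ↔ x ∈ Z) := by
  classical
  have key : ∀ S : Finset (Finset ℕ), S ⊆ At → ∃ Z', L ⊆ Z' ∧ Z' ⊆ U ∧ G.d Z' ≤ G.d Z ∧
      (∀ A ∈ S, A ⊆ Z' ∨ Disjoint A Z') ∧ ∀ x, (∀ A ∈ At, x ∉ A) → (x ∈ Z' ↔ x ∈ Z) := by
    intro S
    induction S using Finset.induction_on with
    | empty =>
      intro _
      exact ⟨Z, hLZ, hZU, le_rfl, fun A hA => absurd hA (Finset.notMem_empty _), fun _ _ => Iff.rfl⟩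
    | @insert A S _ ih =>
      intro hS
      obtain ⟨Z1, h1, h2, h3, h4, h5⟩ := ih fun B hB => hS (Finset.mem_insert_of_mem hB)
      have hA : A ∈ At := hS (Finset.mem_insert_self _ _)
      by_cases hdis : Disjoint A Z1
      · refine ⟨Z1, h1, h2, h3, ?_, h5⟩
        intro B hB
        rcases Finset.mem_insert.1 hB with rfl | hB
        · exact Or.inr hdis
        · exact h4 B hB
      obtain ⟨w, hwA, hwZ⟩ := Finset.not_disjoint_iff.1 hdis
      obtain ⟨c, hcA, hc⟩ := hs A hA
      have hAU : A ⊆ U := by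
        rcases hU A hA with h | h
        · exact h
        · exact absurd (h2 hwZ) (Finset.disjoint_left.1 h hwA)
      by_cases hcZ : c ∈ Z1
      · refine ⟨Z1 ∪ A, h1.trans Finset.subset_union_left, Finset.union_subset h2 hAU, ?_, ?_, ?_⟩
        · have h6 := d_sub G Z1 A
          have h7 := hc (Z1 ∩ A) Finset.inter_subset_right (Finset.mem_inter.2 ⟨hcZ, hcA⟩)
          omega
        · intro B hB
          by_cases hBA : B = A
          · rw [hBA]
            exact Or.inl Finset.subset_union_right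
          · have hBS : B ∈ S := (Finset.mem_insert.1 hB).resolve_left hBA
            rcases h4 B hBS with h6 | h6
            · exact Or.inl (h6.trans Finset.subset_union_left)
            · right
              rw [Finset.disjoint_union_right]
              refine ⟨h6, Finset.disjoint_left.2 fun x hx hx' => hBA ?_⟩
              exact hu B (hS hB) A hA x hx hx'
        · intro x hx
          rw [Finset.mem_union, h5 x hx]
          exact ⟨fun h => h.resolve_right (hx A hA), Or.inl⟩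
      · refine ⟨Z1 \ A, ?_, Finset.sdiff_subset.trans h2, ?_, ?_, ?_⟩
        · intro x hx
          refine Finset.mem_sdiff.2 ⟨h1 hx, fun hxA => ?_⟩
          rcases hL A hA with h | h
          · exact hcZ (h1 (h hcA))
          · exact Finset.disjoint_left.1 h hxA hx
        · have h6 := d_pos G Z1 A
          have h7 := hc (A \ Z1) Finset.sdiff_subset (Finset.mem_sdiff.2 ⟨hcA, hcZ⟩)
          omega
        · intro B hB
          by_cases hBA : B = A
          · rw [hBA]
            exact Or.inr Finset.disjoint_sdiff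
          · have hBS : B ∈ S := (Finset.mem_insert.1 hB).resolve_left hBA
            rcases h4 B hBS with h6 | h6
            · left
              intro x hx
              exact Finset.mem_sdiff.2 ⟨h6 hx, fun hxA => hBA (hu B (hS hB) A hA x hx hxA)⟩
            · exact Or.inr (h6.mono_right Finset.sdiff_subset)
        · intro x hx
          rw [Finset.mem_sdiff, h5 x hx]
          exact ⟨fun h => h.1, fun h => ⟨h, hx A hA⟩⟩
  exact key At (Finset.Subset.refl _)

end Pool.Agent.W2411c4
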