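import Pool.Agent.W_2411c4_h59.Node2

/-! Gomory-Hu families: laminar families of critical sets of order less than `M`. -/

set_option autoImplicit false

namespace Pool.Agent.W2411c4

variable {Q : Type}

open Gr

/-- `A` is solid: it has a core vertex -/
def Solid (G : Gr Q) (A : Finset ℕ) : Prop := ∃ x ∈ A, ∀ Y ⊆ A, x ∈ Y → G.d A ≤ G.d Y

/-- the Gomory-Hu family of the cuts of order less than `M` -/
structure GH (G : Gr Q) (V0 : Finset ℕ) (M : ℕ) (F : Finset (Finset ℕ)) : Prop where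
  top : V0 ∈ F
  ne : ∀ X ∈ F, X.Nonempty
  sub : ∀ X ∈ F, X ⊆ V0
  lam : ∀ A ∈ F, ∀ B ∈ F, Lam A B
  ord : ∀ X ∈ F, G.d X < M
  crit : ∀ X ∈ F, X = V0 ∨ Crit V0 G.d X
  sep : ∀ u ∈ V0, ∀ v ∈ V0, u ≠ v → (∃ Z ⊆ V0, Sep u v Z ∧ G.d Z < M) → ∃ X ∈ F, Mn V0 G.d u v X

theorem d_closed {G : Gr Q} {V0 : Finset ℕ} (hc : Closed G V0) : G.d V0 = 0 := by
  unfold Gr.d Gr.bd
  rw [Finset.card_eq_zero, Finset.filter_eq_empty_iff]
  intro e he
  have := hc e he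
  unfold Gr.Cross
  tauto

theorem exists_gh {G : Gr Q} {V0 : Finset ℕ} (hc : Closed G V0) (hne : V0.Nonempty) {M : ℕ}
    (hM : 0 < M) : ∃ F, GH G V0 M F := by
  classical
  obtain ⟨r, hr⟩ := hne
  obtain ⟨F, hF, hsep⟩ := exists_family V0 G.d r (d_sub G) (d_pos G) (fun Z hZ => d_compl hc hZ)
  have hsub : ∀ L ∈ F, L ⊆ V0 := by
    intro L hL
    obtain ⟨x, _, y, _, h⟩ := hF.crit L hL
    exact h.1
  refine ⟨insert V0 (F.filter fun L => G.d L < M), Finset.mem_insert_self _ _, ?_, ?_, ?_, ?_, ?_, ?_⟩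
  · intro X hX
    rcases Finset.mem_insert.1 hX with rfl | hX
    · exact ⟨r, hr⟩
    · obtain ⟨x, _, y, _, h⟩ := hF.crit X (Finset.mem_filter.1 hX).1
      rcases h.2.1 with h1 | h1
      · exact ⟨x, h1.1⟩
      · exact ⟨y, h1.1⟩
  · intro X hX
    rcases Finset.mem_insert.1 hX with rfl | hX
    · exact Finset.Subset.refl _
    · exact hsub X (Finset.mem_filter.1 hX).1
  · intro A hA B hB
    rcases Finset.mem_insert.1 hA with hA' | hA' <;> rcases Finset.mem_insert.1 hB with hB' | hB'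
    · rw [hA', hB']
      exact Lam.refl
    · rw [hA']
      exact Or.inr (Or.inl (hsub B (Finset.mem_filter.1 hB').1))
    · rw [hB']
      exact Or.inl (hsub A (Finset.mem_filter.1 hA').1)
    · exact hF.lam A (Finset.mem_filter.1 hA').1 B (Finset.mem_filter.1 hB').1
  · intro X hX
    rcases Finset.mem_insert.1 hX with rfl | hX
    · rw [d_closed hc]
      exact hM
    · exact (Finset.mem_filter.1 hX).2
  · intro X hX
    rcases Finset.mem_insert.1 hX with rfl | hX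
    · exact Or.inl rfl
    · exact Or.inr (hF.crit X (Finset.mem_filter.1 hX).1)
  · intro u hu v hv huv hZ
    obtain ⟨Z, hZV, hZs, hZd⟩ := hZ
    obtain ⟨X, hX, hXm⟩ := hsep u hu v hv huv
    refine ⟨X, Finset.mem_insert_of_mem (Finset.mem_filter.2 ⟨hX, ?_⟩), hXm⟩
    exact (hXm.2.2 Z hZV hZs).trans_lt hZd

namespace GH

variable {G : Gr Q} {V0 : Finset ℕ} {M : ℕ} {F : Finset (Finset ℕ)}

/-- the family is linked -/
theorem linked (h : GH G V0 M F) (hc : Closed G V0) : Linked G F := by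
  classical
  intro Y hY X hX Z hYZ hZX
  by_contra hcon
  push Not at hcon
  have hdY := hcon Y hY (Finset.Subset.refl _) (hYZ.trans hZX)
  have hdX := hcon X hX (hYZ.trans hZX) (Finset.Subset.refl _)
  rcases h.crit X hX with hXV | ⟨x', hx'V, y', hy'V, hX'⟩
  · rw [hXV, d_closed hc] at hdX
    omega
  rcases h.crit Y hY with hYV | ⟨x, hxV, y, hyV, hY'⟩
  · rw [hYV, d_closed hc] at hdY
    omega
  -- choose the names such that `x ∈ Y`, `y' ∉ X`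
  obtain ⟨x, y, hxV, hyV, hY', hxY, hyY⟩ : ∃ x y, x ∈ V0 ∧ y ∈ V0 ∧ Mn V0 G.d x y Y ∧ x ∈ Y ∧ y ∉ Y := by
    rcases hY'.2.1 with h1 | h1
    · exact ⟨x, y, hxV, hyV, hY', h1.1, h1.2⟩
    · exact ⟨y, x, hyV, hxV, hY'.symm, h1.1, h1.2⟩
  obtain ⟨x', y', hx'V, hy'V, hX', hxX, hyX⟩ :
      ∃ x y, x ∈ V0 ∧ y ∈ V0 ∧ Mn V0 G.d x y X ∧ x ∈ X ∧ y ∉ X := by
    rcases hX'.2.1 with h1 | h1
    · exact ⟨x', y', hx'V, hy'V, hX', h1.1, h1.2⟩
    · exact ⟨y', x', hy'V, hx'V, hX'.symm, h1.1, h1.2⟩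
  have hxX0 : x ∈ X := hZX (hYZ hxY)
  have hZs : Sep x y' Z := Or.inl ⟨hYZ hxY, fun h' => hyX (hZX h')⟩
  have hZV : Z ⊆ V0 := hZX.trans (h.sub X hX)
  have hZM : G.d Z < M := hdY.trans (h.ord Y hY)
  obtain ⟨N, hN, hNm⟩ := h.sep x hxV y' hy'V (fun h' => hyX (h' ▸ hxX0)) ⟨Z, hZV, hZs, hZM⟩
  have hdN : G.d N ≤ G.d Z := hNm.2.2 Z hZV hZs
  rcases hNm.2.1 with ⟨h1, h2⟩ | ⟨h1, h2⟩
  · -- `x ∈ N`, `y' ∉ N`
    rcases lam_sub h.lam hN hY h1 hxY with h3 | h3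
    · have h4 := hY'.2.2 N hNm.1 (Or.inl ⟨h1, fun h' => hyY (h3 h')⟩)
      omega
    · rcases lam_sub h.lam hN hX h1 hxX0 with h4 | h4
      · have h5 := hcon N hN h3 h4
        omega
      · have h5 := hX'.2.2 N hNm.1 (Or.inl ⟨h4 hxX, h2⟩)
        omega
  · -- `y' ∈ N`, `x ∉ N`
    rcases h.lam N hN X hX with h3 | h3 | h3
    · exact hyX (h3 h1)
    · exact h2 (h3 hxX0)
    · have h5 := hX'.2.2 N hNm.1 (Or.inr ⟨h1, Finset.disjoint_right.1 h3 hxX⟩)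
      omega

theorem solid (h : GH G V0 M F) (hc : Closed G V0) {X : Finset ℕ} (hX : X ∈ F) : Solid G X := by
  rcases h.crit X hX with hXV | ⟨x, hxV, y, hyV, hX'⟩
  · obtain ⟨v, hv⟩ := h.ne X hX
    refine ⟨v, hv, fun Y _ _ => ?_⟩
    rw [hXV, d_closed hc]
    exact Nat.zero_le _
  · have hXV := h.sub X hX
    rcases hX'.2.1 with ⟨h1, h2⟩ | ⟨h1, h2⟩
    · exact ⟨x, h1, fun Y hY hxY => hX'.2.2 Y (hY.trans hXV) (Or.inl ⟨hxY, fun h' => h2 (hY h')⟩)⟩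
    · exact ⟨y, h1, fun Y hY hxY => hX'.2.2 Y (hY.trans hXV) (Or.inr ⟨hxY, fun h' => h2 (hY h')⟩)⟩

/-- the outside of a member is solid -/
theorem solid_compl (h : GH G V0 M F) (hc : Closed G V0) {X : Finset ℕ} (hX : X ∈ F)
    (hne : X ≠ V0) : Solid G (V0 \ X) := by
  rcases h.crit X hX with hXV | ⟨x, hxV, y, hyV, hX'⟩
  · exact absurd hXV hne
  · rw [Solid, d_compl hc (h.sub X hX)]
    rcases hX'.2.1 with ⟨h1, h2⟩ | ⟨h1, h2⟩
    · refine ⟨y, Finset.mem_sdiff.2 ⟨hyV, h2⟩, fun Y hY hyY => ?_⟩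
      exact hX'.2.2 Y (hY.trans Finset.sdiff_subset)
        (Or.inr ⟨hyY, fun h' => (Finset.mem_sdiff.1 (hY h')).2 h1⟩)
    · refine ⟨x, Finset.mem_sdiff.2 ⟨hxV, h2⟩, fun Y hY hyY => ?_⟩
      exact hX'.2.2 Y (hY.trans Finset.sdiff_subset)
        (Or.inl ⟨hyY, fun h' => (Finset.mem_sdiff.1 (hY h')).2 h1⟩)

theorem conn (h : GH G V0 M F) (hV : ConnOn G V0) (hc : Closed G V0) {X : Finset ℕ} (hX : X ∈ F) :
    ConnOn G X := by
  rcases h.crit X hX with hXV | hX'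
  · rw [hXV]
    exact hV
  · exact (conn_sides hV hc hX').1

theorem conn_compl (h : GH G V0 M F) (hV : ConnOn G V0) (hc : Closed G V0) {X : Finset ℕ}
    (hX : X ∈ F) : ConnOn G (V0 \ X) := by
  rcases h.crit X hX with hXV | hX'
  · rw [hXV, Finset.sdiff_self]
    intro x hx
    exact absurd hx (Finset.notMem_empty _)
  · exact (conn_sides hV hc hX').2.1

/-- two vertices of a block are not separated by less than `M` edges -/
theorem bag_conn (h : GH G V0 M F) {X : Finset ℕ} (hX : X ∈ F) {u v : ℕ} (hu : u ∈ Bag F X)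
    (hv : v ∈ Bag F X) (huv : u ≠ v) {Z : Finset ℕ} (hZ : Z ⊆ V0) (hs : Sep u v Z) : M ≤ G.d Z := by
  by_contra hcon
  have hXV := h.sub X hX
  obtain ⟨N, hN, hNm⟩ := h.sep u (hXV (mem_bag.1 hu).1) v (hXV (mem_bag.1 hv).1) huv
    ⟨Z, hZ, hs, not_le.1 hcon⟩
  have key : ∀ a b, a ∈ Bag F X → b ∈ Bag F X → a ∈ N → b ∉ N → False := by
    intro a b ha hb haN hbN
    obtain ⟨h1, h2⟩ := mem_bag.1 ha
    obtain ⟨h3, _⟩ := mem_bag.1 hb
    rcases lam_sub h.lam hN hX haN h1 with h4 | h4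
    · refine h2 N hN (Finset.ssubset_iff_subset_ne.2 ⟨h4, ?_⟩) haN
      intro h5
      rw [h5] at hbN
      exact hbN h3
    · exact hbN (h4 h3)
  rcases hNm.2.1 with h1 | h1
  · exact key u v hu hv h1.1 h1.2
  · exact key v u hv hu h1.1 h1.2

end GH

end Pool.Agent.W2411c4
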