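import Pool.Agent.W_2411tw_h80.Free

/-! The outer step: from nodes of Gomory-Hu families to all graphs. -/

set_option autoImplicit false

open Set

namespace Pool.Agent.W2411c4

variable {Q : Type}

open Gr

/-- nodes of Gomory-Hu families of closed connected graphs with property `Pr` -/
structure NdO (Q : Type) (M : ℕ) (Pr : Gr Q → Finset ℕ → Prop) where
  G : Gr Q
  V0 : Finset ℕ
  F : Finset (Finset ℕ)
  X : Finset ℕ
  closed : Closed G V0
  conn : ConnOn G V0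
  pr : Pr G V0
  gh : GH G V0 M F
  hX : X ∈ F

def NdO.sub {M : ℕ} {Pr : Gr Q → Finset ℕ → Prop} (x : NdO Q M Pr) (Y : Finset ℕ) (h : Y ∈ x.F) :
    NdO Q M Pr := ⟨x.G, x.V0, x.F, Y, x.closed, x.conn, x.pr, x.gh, h⟩

def kidsO {M : ℕ} {Pr : Gr Q → Finset ℕ → Prop} (x : NdO Q M Pr) : Set (NdO Q M Pr) :=
  {z | ∃ (Y : Finset ℕ) (h : IsKid x.F x.X Y), z = x.sub Y h.1}

theorem chain_memO {M m : ℕ} {Pr : Gr Q → Finset ℕ → Prop} {x z : NdO Q M Pr}
    (h : Ch (fun x => x.G.d x.X) kidsO m x z) :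
    ∃ (Y : Finset ℕ) (hY : Y ∈ x.F), z = x.sub Y hY ∧ Y ⊂ x.X ∧
      ∀ M ∈ x.F, Y ⊆ M → M ⊆ x.X → M = Y ∨ M = x.X ∨ m ≤ x.G.d M := by
  induction h with
  | one hz =>
    obtain ⟨Y, hY, rfl⟩ := hz
    refine ⟨Y, hY.1, rfl, hY.2.1, ?_⟩
    intro M hM hYM hMX
    by_cases hMe : M = x.X
    · exact Or.inr (Or.inl hMe)
    · exact Or.inl (hY.2.2 M hM hYM (Finset.ssubset_iff_subset_ne.2 ⟨hMX, hMe⟩))
  | step _ hm hz ih =>
    obtain ⟨W, hW, rfl, hWX, hall⟩ := ih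
    obtain ⟨Y, hY, rfl⟩ := hz
    have hY' : IsKid x.F W Y := hY
    refine ⟨Y, hY'.1, rfl, hY'.2.1.trans hWX, ?_⟩
    intro M hM hYM hMX
    obtain ⟨y, hy⟩ := x.gh.ne Y hY'.1
    rcases lam_sub x.gh.lam hM hW (hYM hy) (hY'.2.1.subset hy) with h1 | h1
    · by_cases hMe : M = W
      · right
        right
        rw [hMe]
        exact hm
      · exact Or.inl (hY'.2.2 M hM hYM (Finset.ssubset_iff_subset_ne.2 ⟨h1, hMe⟩))
    · rcases hall M hM h1 hMX with h2 | h2 | h2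
      · right
        right
        rw [h2]
        exact hm
      · exact Or.inr (Or.inl h2)
      · exact Or.inr (Or.inr h2)

/-- the piece of a node with an enumeration -/
def pcO {M : ℕ} {Pr : Gr Q → Finset ℕ → Prop} (p : (x : NdO Q M Pr) × En x.G x.X) : Pc Q :=
  ⟨p.1.G, p.1.X, p.2⟩

/-- the pieces of nodes whose kids are in `W` -/
def NodeP (M : ℕ) (Pr : Gr Q → Finset ℕ → Prop) (W : Set (Pc Q)) : Set (Pc Q) :=
  {P | ∃ V0 F, Closed P.G V0 ∧ ConnOn P.G V0 ∧ Pr P.G V0 ∧ GH P.G V0 M F ∧ P.X ∈ F ∧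
    ∀ Y, IsKid F P.X Y → ∃ e : En P.G Y, (⟨P.G, Y, e⟩ : Pc Q) ∈ W}

/-- closed connected pieces with property `Pr` -/
def ConnP (Pr : Gr Q → Finset ℕ → Prop) : Set (Pc Q) :=
  {P | Closed P.G P.X ∧ ConnOn P.G P.X ∧ Pr P.G P.X}

theorem outer_pwo [Preorder Q] (M : ℕ) (hM : 0 < M) (Pr : Gr Q → Finset ℕ → Prop)
    (hnode : ∀ W : Set (Pc Q), W.PartiallyWellOrderedOn Rp →
      (NodeP M Pr W).PartiallyWellOrderedOn Rp) : (ConnP Pr).PartiallyWellOrderedOn Rp := by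
  let R : ((x : NdO Q M Pr) × En x.G x.X) → ((x : NdO Q M Pr) × En x.G x.X) → Prop :=
    fun p q => Rp (pcO p) (pcO q)
  have : IsPreorder ((x : NdO Q M Pr) × En x.G x.X) R :=
    { refl := fun p => Rp.refl _
      trans := fun _ _ _ h h' => Rp.trans h h' }
  have key : ∀ f : ℕ → ((x : NdO Q M Pr) × En x.G x.X), ∃ m n, m < n ∧ R (f m) (f n) := by
    refine gap (R := R) (fun p => p.1) (fun x => ⟨⟨x, mkEn x.G x.X⟩, rfl⟩)
      (fun x => x.G.d x.X) (fun x => x.X.card) kidsO M (fun x => (x.gh.ord x.X x.hX).le) ?_ ?_ ?_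
    · rintro x z ⟨Y, hY, rfl⟩
      exact Finset.card_lt_card hY.2.1
    · intro W hW
      have hW' : (pcO '' W).PartiallyWellOrderedOn Rp :=
        hW.image_of_monotone_on fun _ _ _ _ h => h
      have hall := hnode (pcO '' W) hW'
      rw [partiallyWellOrderedOn_iff_exists_lt] at hall ⊢
      intro f hf
      obtain ⟨m, n, hmn, hr⟩ := hall (fun i => pcO (f i)) (by
        intro i
        refine ⟨(f i).1.V0, (f i).1.F, (f i).1.closed, (f i).1.conn, (f i).1.pr, (f i).1.gh,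
          (f i).1.hX, ?_⟩
        intro Y hY
        obtain ⟨q, hqW, hq⟩ := hf i ((f i).1.sub Y hY.1) ⟨Y, hY, rfl⟩
        obtain ⟨q1, q2⟩ := q
        simp only at hq
        subst hq
        exact ⟨q2, ⟨_, hqW, rfl⟩⟩)
      exact ⟨m, n, hmn, hr⟩
    · intro p z hch hlab
      obtain ⟨Y, hY, rfl, hYX, hall⟩ := chain_memO hch
      have hd : p.1.G.d Y = p.1.G.d p.1.X := hlab
      obtain ⟨oY, hoY⟩ := link hYX.subset p.2 hd (by
        intro Z hYZ hZX
        obtain ⟨M', hM', hYM, hMX, hMZ⟩ := p.1.gh.linked p.1.closed Y hY p.1.X p.1.hX Z hYZ hZX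
        rcases hall M' hM' hYM hMX with h1 | h1 | h1
        · rw [h1] at hMZ
          exact hMZ
        · rw [h1] at hMZ
          exact hd.le.trans hMZ
        · exact hd.le.trans (h1.trans hMZ))
      exact ⟨⟨p.1.sub Y hY, oY⟩, rfl, hoY⟩
  rw [partiallyWellOrderedOn_iff_exists_lt]
  intro f hf
  have h : ∀ n, (f n).X = ∅ ∨ ∃ F, GH (f n).G (f n).X M F := by
    intro n
    by_cases hX : (f n).X = ∅
    · exact Or.inl hX
    · exact Or.inr (exists_gh (hf n).1 (Finset.nonempty_iff_ne_empty.2 hX) hM)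
  by_cases hE : ∃ m n, m < n ∧ (f m).X = ∅ ∧ (f n).X = ∅
  · obtain ⟨m, n, hmn, h1, h2⟩ := hE
    exact ⟨m, n, hmn, emp_rp h1 h2⟩
  · have hs : ∃ n0, ∀ n, n0 ≤ n → (f n).X ≠ ∅ := by
      by_cases h1 : ∃ m, (f m).X = ∅
      · obtain ⟨m, hm⟩ := h1
        exact ⟨m + 1, fun n hn hn' => hE ⟨m, n, by omega, hm, hn'⟩⟩
      · push Not at h1
        exact ⟨0, fun n _ => Finset.nonempty_iff_ne_empty.1 (h1 n)⟩
    obtain ⟨n0, hn0⟩ := hs
    have h2 : ∀ n, ∃ F, GH (f (n0 + n)).G (f (n0 + n)).X M F := fun n =>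
      (h (n0 + n)).resolve_left (hn0 _ (by omega))
    choose F hF using h2
    obtain ⟨m, n, hmn, hr⟩ := key fun n =>
      ⟨⟨(f (n0 + n)).G, (f (n0 + n)).X, F n, (f (n0 + n)).X, (hf _).1, (hf _).2.1, (hf _).2.2, hF n,
        (hF n).top⟩, (f (n0 + n)).en⟩
    exact ⟨n0 + m, n0 + n, by omega, hr⟩

/-- closed pieces all of whose components have property `Pr` -/
def DiscP (Pr : Gr Q → Finset ℕ → Prop) : Set (Pc Q) :=
  {P | Closed P.G P.X ∧ ∀ C ⊆ P.X, Closed P.G C → ConnOn P.G C → Pr P.G C}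

theorem disc_pwo [Preorder Q] (Pr : Gr Q → Finset ℕ → Prop) (h : (ConnP Pr).PartiallyWellOrderedOn Rp) :
    (DiscP Pr).PartiallyWellOrderedOn Rp := by
  classical
  refine (free_pwo 0 0 h).mono ?_
  rintro ⟨G, X, en⟩ ⟨hc, hp⟩
  simp only at hc hp
  let comp : ℕ → Finset ℕ := fun x => X.filter fun y => G.Conn (inE G X) x y
  have hmem : ∀ x y, y ∈ comp x ↔ y ∈ X ∧ G.Conn (inE G X) x y := fun x y => by simp [comp]
  have hcl : ∀ x, Closed G (comp x) := by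
    intro x e he
    have h1 := hc e he
    rw [hmem, hmem]
    constructor
    · rintro ⟨h2, h3⟩
      have h4 := h1.1 h2
      exact ⟨h4, h3.trans (conn_edge (e := e) ⟨he, h2, h4⟩ (Or.inl rfl) (Or.inr rfl))⟩
    · rintro ⟨h2, h3⟩
      have h4 := h1.2 h2
      exact ⟨h4, h3.trans (conn_edge (e := e) ⟨he, h4, h2⟩ (Or.inr rfl) (Or.inl rfl))⟩
  have hin : ∀ x y, y ∈ X → G.Conn (inE G X) x y → x ∈ X → G.Conn (inE G (comp x)) x y := by
    intro x y hy hxy hx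
    induction hxy with
    | refl => exact Conn.refl
    | @tail b c hab hbc ih =>
      have hbc' := hbc
      obtain ⟨f, hf, hfe⟩ := hbc
      have hb : b ∈ X := by
        rcases hfe with ⟨h1, h2⟩ | ⟨h1, h2⟩
        · rw [← h1]
          exact hf.2.1
        · rw [← h2]
          exact hf.2.2
      refine (ih hb).trans (Relation.ReflTransGen.single ⟨f, ⟨hf.1, ?_⟩, hfe⟩)
      have hbm : b ∈ comp x := (hmem _ _).2 ⟨hb, hab⟩
      have hcm : c ∈ comp x := (hmem _ _).2 ⟨hy, hab.trans (Relation.ReflTransGen.single hbc')⟩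
      rcases hfe with ⟨h1, h2⟩ | ⟨h1, h2⟩
      · exact ⟨h1 ▸ hbm, h2 ▸ hcm⟩
      · exact ⟨h1 ▸ hcm, h2 ▸ hbm⟩
  have hco : ∀ x ∈ X, ConnOn G (comp x) := by
    intro x hx u hu v hv
    obtain ⟨h1, h2⟩ := (hmem _ _).1 hu
    obtain ⟨h3, h4⟩ := (hmem _ _).1 hv
    exact (hin x u h1 h2 hx).symm.trans (hin x v h3 h4 hx)
  refine free_mem (W := ConnP Pr) ∅ (X.image comp) 0 0 ?_ (by simp) ?_ (by simp) (by simp) ?_ en ?_
  · intro x
    constructor
    · intro hx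
      exact ⟨comp x, Finset.mem_union_right _ (Finset.mem_image_of_mem _ hx),
        (hmem _ _).2 ⟨hx, Conn.refl⟩⟩
    · rintro ⟨A, hA, hx⟩
      rcases Finset.mem_union.1 hA with h1 | h1
      · exact absurd h1 (Finset.notMem_empty _)
      · obtain ⟨y, hy, rfl⟩ := Finset.mem_image.1 h1
        exact ((hmem _ _).1 hx).1
  · intro A hA B hB hAB
    rcases Finset.mem_union.1 hA with h1 | h1
    · exact absurd h1 (Finset.notMem_empty _)
    rcases Finset.mem_union.1 hB with h2 | h2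
    · exact absurd h2 (Finset.notMem_empty _)
    obtain ⟨a, ha, rfl⟩ := Finset.mem_image.1 h1
    obtain ⟨b, hb, rfl⟩ := Finset.mem_image.1 h2
    rw [Finset.disjoint_left]
    intro z hz hz'
    apply hAB
    obtain ⟨h3, h4⟩ := (hmem _ _).1 hz
    obtain ⟨h5, h6⟩ := (hmem _ _).1 hz'
    ext w
    rw [hmem, hmem]
    exact ⟨fun h => ⟨h.1, h6.trans (h4.symm.trans h.2)⟩, fun h => ⟨h.1, h4.trans (h6.symm.trans h.2)⟩⟩
  · intro A hA
    obtain ⟨a, ha, rfl⟩ := Finset.mem_image.1 hA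
    refine ⟨d_closed (hcl a), mkEn G (comp a), hcl a, hco a ha, ?_⟩
    exact hp (comp a) (Finset.filter_subset _ _) (hcl a) (hco a ha)
  · rw [En.n_eq, d_closed hc]

end Pool.Agent.W2411c4
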