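import Pool.Agent.W_2411tw_h80.Lines
import Pool.Agent.W_2411c4_h59.Hubs
import Pool.Agent.W_2411c4_h26.Levels

/-! Levels and slabs of a closed graph with hubs; colours of the lines. -/

set_option autoImplicit false

namespace Pool.Agent.W2411si

open Pool.Agent.W2411c4

variable {Q : Type}

open Gr

theorem closed_bd {G : Gr Q} {V0 : Finset ℕ} (hc : Closed G V0) : G.bd V0 = ∅ := by
  rw [Finset.eq_empty_iff_forall_notMem]
  intro e he
  obtain ⟨h1, h2⟩ := G.mem_bd.1 he
  have := hc e h1
  unfold Gr.Cross at h2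
  tauto

/-- the trivial slab -/
theorem slab_triv {G : Gr Q} {V0 : Finset ℕ} (hc : Closed G V0) (h : ℕ) :
    Nonempty (Slab G V0 V0 h) := by
  have h0 : ∀ e, e ∉ G.bd V0 := fun e => by
    rw [closed_bd hc]
    exact Finset.notMem_empty _
  exact ⟨{
    thr := fun _ _ => False
    P := fun _ => ∅
    P' := fun _ => ∅
    thr_mem := fun _ _ h => h.elim
    thr_left := fun _ _ _ h => h.elim
    thr_right := fun _ _ _ h => h.elim
    thr_eq := fun _ _ h => h.elim
    self := fun e he => absurd he (h0 e)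
    self' := fun e he => absurd he (h0 e)
    sub := fun e he => absurd he (h0 e)
    sub' := fun e he => absurd he (h0 e)
    conn := fun e he => absurd he (h0 e)
    conn' := fun e he => absurd he (h0 e)
    connT := fun _ _ h => h.elim
    avoid := fun _ _ h => h.elim
    disj := fun e he => absurd he (h0 e)
    disj' := fun e he => absurd he (h0 e)
    disjT := fun e he => absurd he (h0 e) }⟩

/-- levels and slabs -/
theorem exists_ls {G : Gr Q} {V0 : Finset ℕ} (hc : Closed G V0) {N : ℕ} {b : ℕ → ℕ}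
    (v : Lev G V0 N b) : ∃ S : LS G, (∀ i, i ≤ N + 1 → S.L i = v.L i) ∧
      (∀ i, N + 1 ≤ i → S.L i = V0) ∧ ∀ i, S.b i = b i := by
  let L : ℕ → Finset ℕ := fun i => v.L (min i (N + 1))
  have hL1 : ∀ i, i ≤ N + 1 → L i = v.L i := fun i hi => by
    show v.L (min i (N + 1)) = v.L i
    rw [min_eq_left hi]
  have hL2 : ∀ i, N + 1 ≤ i → L i = V0 := fun i hi => by
    show v.L (min i (N + 1)) = V0
    rw [min_eq_right hi, v.last]
  have hs : ∀ i, Nonempty (Slab G (L i) (L (i + 1)) (b i)) := by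
    intro i
    by_cases hi : i ≤ N
    · rw [hL1 i (by omega), hL1 (i + 1) (by omega)]
      exact v.slab hc hi
    · rw [hL2 i (by omega), hL2 (i + 1) (by omega)]
      exact slab_triv hc (b i)
  refine ⟨⟨L, b, ?_, fun i => (hs i).some⟩, hL1, hL2, fun _ => rfl⟩
  intro i
  by_cases hi : i ≤ N
  · rw [hL1 i (by omega), hL1 (i + 1) (by omega)]
    exact v.mono i hi
  · rw [hL2 i (by omega), hL2 (i + 1) (by omega)]

namespace LS

variable {G : Gr Q}

/-- at most `m` edges pass through each slab -/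
def Few (S : LS G) (m : ℕ) : Prop := ∀ z, ∀ T : Finset (ℕ × ℕ), (∀ p ∈ T, S.T z p.1 p.2) → T.card ≤ m

open Classical in
/-- **Colours of the lines.** -/
theorem exists_col (S : LS G) {m : ℕ} (hm : S.Few m) : ∃ col : ℕ → ℕ → ℕ,
    (∀ z e f, S.T z e f → col z e = col (z + 1) f) ∧
    (∀ z e f, S.Line z e → S.Line z f → col z e = col z f → e = f) ∧
    ∀ z e, S.Line z e → col z e < 2 * m := by
  let Pc : ℕ → (ℕ → ℕ) → Prop := fun z c =>
    (∀ e f, S.Line z e → S.Line z f → c e = c f → e = f) ∧ ∀ e, S.Line z e → c e < 2 * m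
  -- the edges which go on
  have hgo : ∀ z (A : Finset ℕ), (∀ e ∈ A, S.Go z e) → A.card ≤ m := by
    intro z A hA
    choose! nx hnx using fun e (he : S.Go z e) => he
    have h1 := hm z (A.image fun e => (e, nx e)) (by
      intro p hp
      obtain ⟨e, he, rfl⟩ := Finset.mem_image.1 hp
      exact hnx e (hA e he))
    rwa [Finset.card_image_of_injective _ (fun a b hab => (Prod.mk.inj hab).1)] at h1
  have hcm : ∀ z (A : Finset ℕ), (∀ e ∈ A, S.Cm z e) → A.card ≤ m := by
    intro z A hA
    choose! nx hnx using fun e (he : S.Cm z e) => he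
    have h1 := hm z (A.image fun e => (nx e, e)) (by
      intro p hp
      obtain ⟨e, he, rfl⟩ := Finset.mem_image.1 hp
      exact hnx e (hA e he))
    rwa [Finset.card_image_of_injective _ (fun a b hab => (Prod.mk.inj hab).2)] at h1
  have base : ∃ c, Pc 0 c := by
    let A : Finset ℕ := (G.bd (S.L 0)).filter fun e => S.Go 0 e
    have hA : ∀ e, S.Line 0 e → e ∈ A := by
      rintro e (h | ⟨z', hz, _⟩)
      · obtain ⟨f, hf⟩ := h
        exact Finset.mem_filter.2 ⟨S.T_left hf, f, hf⟩
      · omega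
    have hc : A.card ≤ (Finset.range (2 * m)).card := by
      have := hgo 0 A fun e he => (Finset.mem_filter.1 he).2
      rw [Finset.card_range]
      omega
    obtain ⟨f, hf, hfi⟩ := exists_inj A (Finset.range (2 * m)) hc
    exact ⟨f, fun e e' he he' => hfi e (hA e he) e' (hA e' he'),
      fun e he => Finset.mem_range.1 (hf e (hA e he))⟩
  have step : ∀ z c, Pc z c → ∃ c', Pc (z + 1) c' ∧ ∀ e f, S.T z e f → c e = c' f := by
    intro z c hc
    let B := G.bd (S.L (z + 1))
    let A1 : Finset ℕ := B.filter fun e => S.Cm z e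
    let A2 : Finset ℕ := B.filter fun e => S.Go (z + 1) e ∧ ¬ S.Cm z e
    have h1 := hcm z A1 fun e he => (Finset.mem_filter.1 he).2
    have h2 := hgo (z + 1) A2 fun e he => (Finset.mem_filter.1 he).2.1
    choose! pv hpv using fun f (hf : S.Cm z f) => hf
    let used : Finset ℕ := A1.image fun f => c (pv f)
    have h3 : used.card ≤ m := Finset.card_image_le.trans h1
    have h4 : A2.card ≤ (Finset.range (2 * m) \ used).card := by
      have h5 := Finset.le_card_sdiff used (Finset.range (2 * m))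
      rw [Finset.card_range] at h5
      omega
    obtain ⟨g, hg, hgi⟩ := exists_inj A2 (Finset.range (2 * m) \ used) h4
    let c' : ℕ → ℕ := fun f => if S.Cm z f then c (pv f) else g f
    have e1 : ∀ f, S.Cm z f → c' f = c (pv f) := fun f hf => if_pos hf
    have e2 : ∀ f, ¬ S.Cm z f → c' f = g f := fun f hf => if_neg hf
    have hA1 : ∀ f, S.Cm z f → f ∈ A1 := by
      intro f hf
      obtain ⟨e, he⟩ := hf
      exact Finset.mem_filter.2 ⟨S.T_right he, e, he⟩
    have hA2 : ∀ f, S.Line (z + 1) f → ¬ S.Cm z f → f ∈ A2 := by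
      intro f hf hn
      exact Finset.mem_filter.2 ⟨S.line_mem hf, ((S.line_succ).1 hf).resolve_right hn, hn⟩
    have hu : ∀ f, S.Cm z f → c' f ∈ used := by
      intro f hf
      rw [e1 f hf]
      exact Finset.mem_image.2 ⟨f, hA1 f hf, rfl⟩
    have hn : ∀ f, S.Line (z + 1) f → ¬ S.Cm z f → c' f < 2 * m ∧ c' f ∉ used := by
      intro f hf hn
      rw [e2 f hn]
      have h5 := Finset.mem_sdiff.1 (hg f (hA2 f hf hn))
      exact ⟨Finset.mem_range.1 h5.1, h5.2⟩
    refine ⟨c', ⟨?_, ?_⟩, ?_⟩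
    · intro e f he hf hef
      by_cases ce : S.Cm z e <;> by_cases cf : S.Cm z f
      · rw [e1 e ce, e1 f cf] at hef
        have h5 := hpv e ce
        have h6 := hpv f cf
        have h7 := hc.1 _ _ (S.line_of_left h5) (S.line_of_left h6) hef
        rw [h7] at h5
        exact (S.s z).thr_left _ _ _ h5 h6
      · exact absurd (hef ▸ hu e ce) (hn f hf cf).2
      · exact absurd (hef.symm ▸ hu f cf) (hn e he ce).2
      · rw [e2 e ce, e2 f cf] at hef
        exact hgi e (hA2 e he ce) f (hA2 f hf cf) hef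
    · intro f hf
      by_cases cf : S.Cm z f
      · rw [e1 f cf]
        exact hc.2 _ (S.line_of_left (hpv f cf))
      · exact (hn f hf cf).1
    · intro e f hef
      rw [e1 f ⟨e, hef⟩]
      rw [(S.s z).thr_right _ _ _ hef (hpv f ⟨e, hef⟩)]
  obtain ⟨c0, hc0⟩ := base
  choose! nx hnx1 hnx2 using step
  let col : ℕ → ℕ → ℕ := fun z => Nat.rec c0 (fun z c => nx z c) z
  have hP : ∀ z, Pc z (col z) := by
    intro z
    induction z with
    | zero => exact hc0
    | succ z ih => exact hnx1 z (col z) ih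
  exact ⟨col, fun z e f h => hnx2 z (col z) (hP z) e f h, fun z => (hP z).1, fun z => (hP z).2⟩

end LS

/-- few edges pass, from the patterns -/
theorem few_ls {G : Gr Q} {V0 : Finset ℕ} {N : ℕ} {b : ℕ → ℕ} (hc : Closed G V0) (v : Lev G V0 N b)
    {m : ℕ}
    (hm : ∀ i, i ≤ N → ∃ V : Finset ℕ, V ⊆ V0 ∧ (∀ j, j ≤ N → (b j ∈ V ↔ j < i)) ∧
      (G.E.filter fun e => G.Cross V e ∧ ¬ G.Inc e (b i)).card ≤ m)
    (S : LS G) (h1 : ∀ i, i ≤ N + 1 → S.L i = v.L i) (h2 : ∀ i, N + 1 ≤ i → S.L i = V0)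
    (h3 : ∀ i, S.b i = b i) : S.Few m := by
  intro z T hT
  by_cases hz : z ≤ N
  · obtain ⟨V, hV, hp, hV2⟩ := hm z hz
    obtain ⟨V', h4, h5, _, h6⟩ := v.squeeze hz hV hp
    have h7 := thr_card (S.s z) (V := V') (by rw [h1 z (by omega)]; exact h4)
      (by rw [h1 (z + 1) (by omega)]; exact h5) T hT
    rw [h3 z] at h7
    exact h7.trans (h6.trans hV2)
  · have h8 : T = ∅ := by
      rw [Finset.eq_empty_iff_forall_notMem]
      intro p hp
      have h9 := S.T_left (hT p hp)
      rw [h2 z (by omega), closed_bd hc] at h9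
      exact absurd h9 (Finset.notMem_empty _)
    rw [h8]
    exact Nat.zero_le _

end Pool.Agent.W2411si
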