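import Pool.Agent.W_2411tw_h80.ThinNode

/-! Elimination orders and valid families. -/

set_option autoImplicit false

open Set

namespace Pool.Agent.W2411c4

variable {Q : Type}

open Gr

/-- An elimination order of width at most `k` of the vertex set `R` of the graph `H`: `up p` has at
most `k` elements of larger rank, is a clique of the fill-in, and every edge joins some `p` to an
element of `up p`. -/
structure Elim (H : Gr Q) (R : Finset ℕ) (k : ℕ) (up : ℕ → Finset ℕ) (rk : ℕ → ℕ) : Prop where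
  sub : ∀ p ∈ R, up p ⊆ R
  card : ∀ p ∈ R, (up p).card ≤ k
  rk_lt : ∀ p ∈ R, ∀ q ∈ up p, rk p < rk q
  clique : ∀ p ∈ R, ∀ q ∈ up p, ∀ q' ∈ up p, q = q' ∨ q' ∈ up q ∨ q ∈ up q'
  edge : ∀ e ∈ H.E, H.a e ∈ R → H.b e ∈ R → H.b e ∈ up (H.a e) ∨ H.a e ∈ up (H.b e)

namespace Elim

variable {H : Gr Q} {R : Finset ℕ} {k : ℕ} {up : ℕ → Finset ℕ} {rk : ℕ → ℕ}

/-- the parent is the element of least rank of `up` -/
def Step (R : Finset ℕ) (up : ℕ → Finset ℕ) (rk : ℕ → ℕ) (v w : ℕ) : Prop :=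
  v ∈ R ∧ w ∈ up v ∧ ∀ u ∈ up v, rk w ≤ rk u

/-- ancestors -/
def Anc (R : Finset ℕ) (up : ℕ → Finset ℕ) (rk : ℕ → ℕ) : ℕ → ℕ → Prop :=
  Relation.ReflTransGen (Step R up rk)

theorem step_uniq (h : Elim H R k up rk) {v w w' : ℕ} (h1 : Step R up rk v w)
    (h2 : Step R up rk v w') : w = w' := by
  have h3 := h1.2.2 w' h2.2.1
  have h4 := h2.2.2 w h1.2.1
  have hwR := h.sub v h1.1 h1.2.1
  have hwR' := h.sub v h1.1 h2.2.1
  rcases h.clique v h1.1 w h1.2.1 w' h2.2.1 with h5 | h5 | h5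
  · exact h5
  · have := h.rk_lt w hwR w' h5
    omega
  · have := h.rk_lt w' hwR' w h5
    omega

theorem step_lt (h : Elim H R k up rk) {v w : ℕ} (h1 : Step R up rk v w) : rk v < rk w :=
  h.rk_lt v h1.1 w h1.2.1

theorem anc_le (h : Elim H R k up rk) {v w : ℕ} (h1 : Anc R up rk v w) : v = w ∨ rk v < rk w := by
  induction h1 with
  | refl => exact Or.inl rfl
  | tail _ h3 ih =>
    right
    have h4 := h.step_lt h3
    rcases ih with rfl | h5
    · exact h4
    · exact h5.trans h4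

theorem anc_mem (h : Elim H R k up rk) {v w : ℕ} (h1 : Anc R up rk v w) (hv : v ∈ R) : w ∈ R := by
  induction h1 with
  | refl => exact hv
  | tail _ h3 _ => exact h.sub _ h3.1 h3.2.1

theorem exists_step {v w : ℕ} (hv : v ∈ R) (hw : w ∈ up v) : ∃ u, Step R up rk v u := by
  obtain ⟨u, hu, hmin⟩ := Finset.exists_min_image (up v) rk ⟨w, hw⟩
  exact ⟨u, hv, hu, hmin⟩

theorem up_step (h : Elim H R k up rk) {v u w : ℕ} (h1 : Step R up rk v u) (hw : w ∈ up v) :
    w = u ∨ w ∈ up u := by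
  have huR := h.sub v h1.1 h1.2.1
  have hwR := h.sub v h1.1 hw
  rcases h.clique v h1.1 u h1.2.1 w hw with h5 | h5 | h5
  · exact Or.inl h5.symm
  · exact Or.inr h5
  · have h6 := h.rk_lt w hwR u h5
    have h7 := h1.2.2 w hw
    omega

/-- elements of `up w` are ancestors of `w` -/
theorem up_anc (h : Elim H R k up rk) : ∀ (n : ℕ) (w u : ℕ), R.sup rk - rk w ≤ n → w ∈ R →
    u ∈ up w → Anc R up rk w u := by
  intro n
  induction n with
  | zero =>
    intro w u hn hw hu
    exfalso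
    have h1 := h.rk_lt w hw u hu
    have h2 : rk u ≤ R.sup rk := Finset.le_sup (h.sub w hw hu)
    omega
  | succ n ih =>
    intro w u hn hw hu
    obtain ⟨p, hp⟩ := exists_step (rk := rk) hw hu
    have hpR := h.sub w hw hp.2.1
    rcases h.up_step hp hu with rfl | h1
    · exact Relation.ReflTransGen.single hp
    · refine Relation.ReflTransGen.head hp (ih p u ?_ hpR h1)
      have h2 := h.step_lt hp
      have h3 : rk p ≤ R.sup rk := Finset.le_sup hpR
      omega

theorem anc_up (h : Elim H R k up rk) {p v w : ℕ} (h1 : Anc R up rk v p) (hw : w ∈ up v) :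
    Anc R up rk w p ∨ w ∈ up p := by
  induction h1 using Relation.ReflTransGen.head_induction_on with
  | refl => exact Or.inr hw
  | head h2 h3 ih =>
    rcases h.up_step h2 hw with rfl | h4
    · exact Or.inl h3
    · exact ih h4

open Classical in
/-- the descendants -/
noncomputable def Dn (R : Finset ℕ) (up : ℕ → Finset ℕ) (rk : ℕ → ℕ) (p : ℕ) : Finset ℕ :=
  R.filter fun v => Anc R up rk v p

theorem mem_dn {p v : ℕ} : v ∈ Dn R up rk p ↔ v ∈ R ∧ Anc R up rk v p := by
  classical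
  simp [Dn]

theorem dn_sub {p q : ℕ} (h : Anc R up rk q p) : Dn R up rk q ⊆ Dn R up rk p := by
  intro v hv
  obtain ⟨h1, h2⟩ := mem_dn.1 hv
  exact mem_dn.2 ⟨h1, h2.trans h⟩

theorem self_mem {p : ℕ} (hp : p ∈ R) : p ∈ Dn R up rk p := mem_dn.2 ⟨hp, Relation.ReflTransGen.refl⟩

theorem dn_inj (h : Elim H R k up rk) {p q : ℕ} (hp : p ∈ R) (hq : q ∈ R)
    (hpq : Dn R up rk p = Dn R up rk q) : p = q := by
  have h1 : Anc R up rk p q := (mem_dn.1 (hpq ▸ self_mem hp)).2
  have h2 : Anc R up rk q p := (mem_dn.1 (hpq.symm ▸ self_mem hq)).2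
  rcases h.anc_le h1 with h3 | h3
  · exact h3
  · rcases h.anc_le h2 with h4 | h4
    · exact h4.symm
    · omega

/-- an edge leaving the descendants of `p` goes to `up p` or leaves `R` -/
theorem edge_out (h : Elim H R k up rk) {p : ℕ} {e v w : ℕ} (he : e ∈ H.E)
    (hv : H.Inc e v) (hw : H.Inc e w) (hvp : v ∈ Dn R up rk p) (hwp : w ∉ Dn R up rk p)
    (hwR : w ∈ R) : w ∈ up p := by
  obtain ⟨hvR, hva⟩ := mem_dn.1 hvp
  have hne : v ≠ w := fun h' => hwp (h' ▸ hvp)
  have h1 : w ∈ up v ∨ v ∈ up w := by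
    rcases hv with rfl | rfl <;> rcases hw with rfl | rfl
    · exact absurd rfl hne
    · exact h.edge e he hvR hwR
    · exact (h.edge e he hwR hvR).symm
    · exact absurd rfl hne
  rcases h1 with h1 | h1
  · rcases h.anc_up hva h1 with h2 | h2
    · exact absurd (mem_dn.2 ⟨hwR, h2⟩) hwp
    · exact h2
  · have h2 := h.up_anc _ w v le_rfl hwR h1
    exact absurd (mem_dn.2 ⟨hwR, h2.trans hva⟩) hwp

theorem bag_sub (h : Elim H R k up rk) {F : Finset (Finset ℕ)}
    (hF : ∀ X, X ∈ F ↔ X = R ∨ ∃ p ∈ R, X = Dn R up rk p) {X : Finset ℕ} (hX : X ∈ F) {v : ℕ}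
    (hv : v ∈ Bag F X) : v ∈ R ∧ X = Dn R up rk v := by
  obtain ⟨h1, h2⟩ := mem_bag.1 hv
  have hXR : X ⊆ R := by
    rcases (hF X).1 hX with rfl | ⟨p, _, rfl⟩
    · exact Finset.Subset.refl _
    · exact fun x hx => (mem_dn.1 hx).1
  have hvR := hXR h1
  refine ⟨hvR, ?_⟩
  by_contra hne
  refine h2 (Dn R up rk v) ((hF _).2 (Or.inr ⟨v, hvR, rfl⟩)) ?_ (self_mem hvR)
  refine Finset.ssubset_iff_subset_ne.2 ⟨?_, fun h' => hne h'.symm⟩
  rcases (hF X).1 hX with rfl | ⟨p, _, rfl⟩
  · exact fun x hx => (mem_dn.1 hx).1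
  · exact dn_sub (mem_dn.1 h1).2

/-- **An elimination order gives a valid family.** -/
theorem val (h : Elim H R k up rk) (hne : R.Nonempty) {M K : ℕ} (hM : ∀ v ∈ R, H.d {v} ≤ M)
    (hK : H.d R ≤ K) : ∃ F, Val H R (k * M + K) (3 * (k * M + K) + 1) F := by
  classical
  let F : Finset (Finset ℕ) := insert R (R.image (Dn R up rk))
  have hF : ∀ X, X ∈ F ↔ X = R ∨ ∃ p ∈ R, X = Dn R up rk p := by
    intro X
    simp only [F, Finset.mem_insert, Finset.mem_image]
    constructor
    · rintro (h1 | ⟨p, hp, h1⟩)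
      · exact Or.inl h1
      · exact Or.inr ⟨p, hp, h1.symm⟩
    · rintro (h1 | ⟨p, hp, h1⟩)
      · exact Or.inl h1
      · exact Or.inr ⟨p, hp, h1.symm⟩
  have hsub : ∀ X ∈ F, X ⊆ R := by
    intro X hX
    rcases (hF X).1 hX with rfl | ⟨p, _, rfl⟩
    · exact Finset.Subset.refl _
    · exact fun x hx => (mem_dn.1 hx).1
  have htot : ∀ v p q, Anc R up rk v p → Anc R up rk v q → Anc R up rk p q ∨ Anc R up rk q p := by
    intro v p q h1 h2
    exact Relation.ReflTransGen.total_of_right_unique (fun a b c hb hc => h.step_uniq hb hc) h1 h2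
  have hlam : ∀ A ∈ F, ∀ B ∈ F, Lam A B := by
    intro A hA B hB
    rcases (hF A).1 hA with hA' | ⟨p, hp, rfl⟩
    · rw [hA']
      exact Or.inr (Or.inl (hsub B hB))
    · rcases (hF B).1 hB with hB' | ⟨q, hq, rfl⟩
      · rw [hB']
        exact Or.inl (hsub _ hA)
      · by_cases hd : Disjoint (Dn R up rk p) (Dn R up rk q)
        · exact Or.inr (Or.inr hd)
        · obtain ⟨v, hv1, hv2⟩ := Finset.not_disjoint_iff.1 hd
          rcases htot v p q (mem_dn.1 hv1).2 (mem_dn.1 hv2).2 with h1 | h1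
          · exact Or.inl (dn_sub h1)
          · exact Or.inr (Or.inl (dn_sub h1))
  have hord : ∀ X ∈ F, H.d X ≤ k * M + K := by
    intro X hX
    rcases (hF X).1 hX with rfl | ⟨p, hp, rfl⟩
    · exact hK.trans (Nat.le_add_left _ _)
    · have h1 : H.bd (Dn R up rk p) ⊆ ((up p).biUnion fun w => H.bd {w}) ∪ H.bd R := by
        intro e he
        obtain ⟨heE, hc⟩ := H.mem_bd.1 he
        obtain ⟨v, w, hv, hvp, hw, hwp⟩ := cross_ends hc
        by_cases hwR : w ∈ R
        · have h2 := h.edge_out heE hv hw hvp hwp hwR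
          refine Finset.mem_union_left _ (Finset.mem_biUnion.2 ⟨w, h2, H.mem_bd.2 ⟨heE, ?_⟩⟩)
          refine cross_of hw (Finset.mem_singleton_self w) hv ?_
          intro h3
          rw [Finset.mem_singleton.1 h3] at hvp
          exact hwp hvp
        · exact Finset.mem_union_right _ (H.mem_bd.2 ⟨heE, cross_of hv (mem_dn.1 hvp).1 hw hwR⟩)
      have h2 := (Finset.card_le_card h1).trans (Finset.card_union_le _ _)
      have h3 : ((up p).biUnion fun w => H.bd {w}).card ≤ (up p).card * M :=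
        Finset.card_biUnion_le_card_mul _ _ _ fun w hw => hM w (h.sub p hp hw)
      have h4 : (up p).card * M ≤ k * M := Nat.mul_le_mul_right _ (h.card p hp)
      have h5 : (H.bd R).card ≤ K := hK
      have h6 : H.d (Dn R up rk p) = (H.bd (Dn R up rk p)).card := rfl
      omega
  refine ⟨F, (hF R).2 (Or.inl rfl), ?_, hsub, hlam, hord, ?_⟩
  · intro X hX
    rcases (hF X).1 hX with rfl | ⟨p, hp, rfl⟩
    · exact hne
    · exact ⟨p, self_mem hp⟩
  · intro X hX
    have hbag : (Bag F X).card ≤ 1 := by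
      rw [Finset.card_le_one]
      intro a ha b hb
      obtain ⟨h1, h2⟩ := h.bag_sub hF hX ha
      obtain ⟨h3, h4⟩ := h.bag_sub hF hX hb
      exact h.dn_inj h1 h3 (h2.symm.trans h4)
    have hnp : ∀ C ∈ NP H F X, IsKid F X C ∧ ∃ e ∈ H.bd X, H.Touch C e := by
      intro C hC
      obtain ⟨hkid, hpr⟩ := mem_np.1 hC
      refine ⟨hkid, ?_⟩
      unfold Priv at hpr
      push Not at hpr
      obtain ⟨e, he, ht, w, hw, hwC, hwB⟩ := hpr
      obtain ⟨v, hv, hvC⟩ := touch_end.1 ht
      refine ⟨e, ?_, ht⟩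
      by_contra hcon
      have hwX : w ∈ X := by
        by_contra hwX
        exact hcon (H.mem_bd.2 ⟨he, cross_of hv (hkid.2.1.subset hvC) hw hwX⟩)
      have hwR := hsub X hX hwX
      rcases (hF C).1 hkid.1 with hCR | ⟨c, hc, hCc⟩
      · rw [hCR] at hwC
        exact hwC hwR
      · rw [hCc] at hvC hwC
        have h1 := h.edge_out he hv hw hvC hwC hwR
        have h2 := h.up_anc _ c w le_rfl hc h1
        have h3 : C ⊆ Dn R up rk w := by
          rw [hCc]
          exact dn_sub h2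
        have h4 : Dn R up rk w ⊆ X := by
          rcases (hF X).1 hX with hXR | ⟨p, hp, hXp⟩
          · rw [hXR]
            exact fun x hx => (mem_dn.1 hx).1
          · rw [hXp] at hwX ⊢
            exact dn_sub (mem_dn.1 hwX).2
        by_cases h5 : Dn R up rk w = X
        · apply hwB
          refine mem_bag.2 ⟨hwX, ?_⟩
          intro N' hN' hNX hwN
          rcases (hF N').1 hN' with h6 | ⟨p, hp, h6⟩
          · rw [h6] at hNX
            exact hNX.2 (hsub X hX)
          · rw [h6] at hwN hNX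
            have h7 := dn_sub (mem_dn.1 hwN).2
            rw [h5] at h7
            exact hNX.2 h7
        · have h6 := hkid.2.2 (Dn R up rk w) ((hF _).2 (Or.inr ⟨w, hwR, rfl⟩)) h3
            (Finset.ssubset_iff_subset_ne.2 ⟨h4, h5⟩)
          apply hwC
          rw [← hCc, ← h6]
          exact self_mem hwR
    have h1 := touched_count (G := H) hlam (X := X) (H.bd X) (NP H F X) hnp
    have h2 := hord X hX
    have h3 : (H.bd X).card = H.d X := rfl
    have h4 : (k * M + K + 1) * (Bag F X).card ≤ (k * M + K + 1) * 1 := Nat.mul_le_mul_left _ hbag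
    omega

end Elim

end Pool.Agent.W2411c4
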