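import Pool.Agent.W_2411c4_h59.Hubs

/-! Pieces that are unions of parts of `W` not joined by edges; no condition on the labels. -/

set_option autoImplicit false

open Set

namespace Pool.Agent.W2411c4

variable {Q : Type}

open Gr

theorem hubs0_pwo [Preorder Q] (K : ℕ) {W : Set (Pc Q)} (hW : W.PartiallyWellOrderedOn Rp) :
    (HubsP 0 K W).PartiallyWellOrderedOn Rp := by
  classical
  rw [partiallyWellOrderedOn_iff_exists_lt]
  intro f hf
  have hf' : ∀ n, (f n).n ≤ K ∧ ∃ (s : ℕ) (Xi : Fin s → Finset ℕ) (ei : ∀ i, En (f n).G (Xi i))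
      (H : Finset ℕ), Split (f n).X H Xi ∧ H.card ≤ 0 ∧
      (∀ i, (⟨(f n).G, Xi i, ei i⟩ : Pc Q) ∈ W ∧ (ei i).n ≤ K) ∧
      ∀ e ∈ (f n).G.E, ∀ i j, (f n).G.Touch (Xi i) e → (f n).G.Touch (Xi j) e → i = j := hf
  choose hK s Xi ei H hS hc hm hsep using hf'
  have hH : ∀ n x, x ∉ H n := by
    intro n x hx
    have h1 : H n = ∅ := Finset.card_eq_zero.1 (Nat.le_zero.1 (hc n))
    rw [h1] at hx
    exact absurd hx (Finset.notMem_empty _)
  let σ : ∀ n, Fin (s n) → (Fin K → Fin K → Prop) × (Fin K → Fin 0 → Prop) := fun n i =>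
    (fun a j => a.1 < (ei n i).n ∧ j.1 < (f n).n ∧ (ei n i).o a.1 = (f n).o j.1, fun _ _ => True)
  have h1 : (Set.univ : Set (Fin (K + 1))).PartiallyWellOrderedOn Eq :=
    Set.finite_univ.partiallyWellOrderedOn
  have h3 : (Set.univ : Set ((Fin K → Fin K → Prop) × (Fin K → Fin 0 → Prop))).PartiallyWellOrderedOn
      Eq := Set.finite_univ.partiallyWellOrderedOn
  have h4 : ((Set.univ : Set ((Fin K → Fin K → Prop) × (Fin K → Fin 0 → Prop))) ×ˢ
      W).PartiallyWellOrderedOn (DRp 0 K) := h3.prod hW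
  have h5 := PartiallyWellOrderedOn.partiallyWellOrderedOn_sublistForall₂ (DRp 0 K) h4
  obtain ⟨m, n, hmn, hdn, hl⟩ := (h1.prod h5).exists_lt
    (f := fun n => ((⟨(f n).n, Nat.lt_succ_of_le (hK n)⟩ : Fin (K + 1)),
      List.ofFn (fun i => (σ n i, (⟨(f n).G, Xi n i, ei n i⟩ : Pc Q)))))
    (fun n => ⟨Set.mem_univ _, by
      intro x hx
      obtain ⟨i, rfl⟩ := (List.mem_ofFn' _ _).1 hx
      exact ⟨Set.mem_univ _, (hm n i).1⟩⟩)
  refine ⟨m, n, hmn, ?_⟩
  simp only [Fin.mk.injEq] at hdn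
  obtain ⟨φ, hφ, hφr⟩ := sublistForall₂_fn hl
  have hni : ∀ i, (ei m i).n = (ei n (φ i)).n := fun i => (hφr i).2.n_eq
  refine hubs_step (ei m) (ei n) (hS m) (hS n) 0 (fun _ => 0) (fun _ => 0) ?_ ?_ ?_ ?_ ?_
    (hsep m) (hsep n) hdn φ hφ (fun i => (hφr i).2) ?_ ?_ ?_ ?_
  · intro x
    constructor
    · intro hx
      exact absurd hx (hH m x)
    · rintro ⟨l, hl, _⟩
      omega
  · intro x
    constructor
    · intro hx
      exact absurd hx (hH n x)
    · rintro ⟨l, hl, _⟩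
      omega
  · intro l hl
    omega
  · intro l hl
    omega
  · intro l hl
    omega
  · intro i a ha j hj
    have haK : a < K := ha.trans_le (hm m i).2
    have hjK : j < K := hj.trans_le (hK m)
    have h6 := congrFun (congrFun (Prod.ext_iff.1 (hφr i).1).1 ⟨a, haK⟩) ⟨j, hjK⟩
    simp only [σ, eq_iff_iff] at h6
    constructor
    · intro h'
      exact (h6.1 ⟨ha, hj, h'⟩).2.2
    · intro h'
      exact (h6.2 ⟨hni i ▸ ha, hdn ▸ hj, h'⟩).2.2
  · intro i a ha l hl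
    omega
  · intro j hj l hl
    omega
  · intro l hl
    omega

end Pool.Agent.W2411c4
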