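import Pool.Agent.W_2411tw_h80.GH
import Pool.Agent.W_2411tw_h80.Hubs0

/-! Pieces that consist of boundedly many parts of bounded order and of parts without boundary. -/

set_option autoImplicit false

open Set

namespace Pool.Agent.W2411c4

variable {Q : Type}

open Gr

theorem no_touch_out {G : Gr Q} {C : Finset ℕ} (h : G.d C = 0) {e : ℕ} (he : e ∈ G.E)
    (ht : G.Touch C e) : G.Inner C e := by
  rcases touch_iff.1 ht with h1 | h1
  · exact h1
  · exfalso
    unfold Gr.d at h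
    rw [Finset.card_eq_zero] at h
    have h2 : e ∈ G.bd C := G.mem_bd.2 ⟨he, h1⟩
    rw [h] at h2
    exact absurd h2 (Finset.notMem_empty _)

theorem union_mem [Preorder Q] {G : Gr Q} {W : Set (Pc Q)} {X : Finset ℕ} (S : Finset (Finset ℕ))
    (N K : ℕ) (hX : ∀ x, x ∈ X ↔ ∃ A ∈ S, x ∈ A) (hN : S.card ≤ N)
    (hd : ∀ A ∈ S, ∀ B ∈ S, A ≠ B → Disjoint A B)
    (hW : ∀ A ∈ S, G.d A ≤ K ∧ ∃ e : En G A, (⟨G, A, e⟩ : Pc Q) ∈ W) (en : En G X)
    (hen : en.n ≤ K) : (⟨G, X, en⟩ : Pc Q) ∈ UnP N K (W ∪ Emp Q) := by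
  classical
  obtain ⟨g, hg1, hg2, hg3⟩ := exists_enum S N hN hd
  have hex : ∀ i, ∃ e : En G (g i), (⟨G, g i, e⟩ : Pc Q) ∈ W ∪ Emp Q ∧ e.n ≤ K := by
    intro i
    rcases hg1 i with h | h
    · obtain ⟨h1, e, he⟩ := hW _ h
      exact ⟨e, Or.inl he, by rw [En.n_eq]; exact h1⟩
    · refine ⟨mkEn G (g i), Or.inr h, ?_⟩
      have h2 : (mkEn G (g i)).n = 0 := emp_n (P := ⟨G, g i, mkEn G (g i)⟩) h
      omega
  choose eg heg using hex
  refine ⟨hen, g, eg, ⟨?_, hg3, fun i => Finset.disjoint_empty_left _⟩, heg⟩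
  intro x
  show x ∈ X ↔ _
  rw [hX]
  constructor
  · rintro ⟨A, hA, hx⟩
    obtain ⟨i, hi⟩ := hg2 A hA
    exact Or.inr ⟨i, hi ▸ hx⟩
  · rintro (h | ⟨i, hi⟩)
    · exact absurd h (Finset.notMem_empty _)
    · rcases hg1 i with h | h
      · exact ⟨g i, h, hi⟩
      · rw [h] at hi
        exact absurd hi (Finset.notMem_empty _)

theorem free_mem [Preorder Q] {G : Gr Q} {W : Set (Pc Q)} {X : Finset ℕ} (S1 S2 : Finset (Finset ℕ))
    (N K : ℕ) (hX : ∀ x, x ∈ X ↔ ∃ A ∈ S1 ∪ S2, x ∈ A) (hN : S1.card ≤ N)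
    (hd : ∀ A ∈ S1 ∪ S2, ∀ B ∈ S1 ∪ S2, A ≠ B → Disjoint A B)
    (hS : ∀ A ∈ S1, A ∉ S2)
    (hW1 : ∀ A ∈ S1, G.d A ≤ K ∧ ∃ e : En G A, (⟨G, A, e⟩ : Pc Q) ∈ W)
    (hW2 : ∀ A ∈ S2, G.d A = 0 ∧ ∃ e : En G A, (⟨G, A, e⟩ : Pc Q) ∈ W) (en : En G X)
    (hen : en.n ≤ K) :
    (⟨G, X, en⟩ : Pc Q) ∈ HubsP 0 (N * K + K) ((W ∪ Emp Q) ∪ UnP N (N * K + K) (W ∪ Emp Q)) := by
  classical
  let U : Finset ℕ := S1.biUnion id
  have hU : ∀ x, x ∈ U ↔ ∃ C, C ∈ S1 ∧ x ∈ C := by
    intro x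
    simp only [U, Finset.mem_biUnion, id]
  have hdU : G.d U ≤ N * K := by
    refine (d_biUnion_le S1 K fun C hC => (hW1 C hC).1).trans (Nat.mul_le_mul_right _ hN)
  let S : Finset (Finset ℕ) := insert U S2
  have hUPK : ∀ C ∈ S2, Disjoint U C := by
    intro C hC
    rw [Finset.disjoint_left]
    intro x hx hxC
    obtain ⟨C', hC', hxC'⟩ := (hU x).1 hx
    have h1 : C' ≠ C := fun h => hS C' hC' (h ▸ hC)
    exact Finset.disjoint_left.1 (hd C' (Finset.mem_union_left _ hC') C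
      (Finset.mem_union_right _ hC) h1) hxC' hxC
  obtain ⟨g, hg1, hg2, hg3⟩ := exists_enum S S.card le_rfl (by
    intro A hA B hB hAB
    rcases Finset.mem_insert.1 hA with hA' | hA' <;> rcases Finset.mem_insert.1 hB with hB' | hB'
    · exact absurd (hA'.trans hB'.symm) hAB
    · rw [hA']
      exact hUPK B hB'
    · rw [hB']
      exact (hUPK A hA').symm
    · exact hd A (Finset.mem_union_right _ hA') B (Finset.mem_union_right _ hB') hAB)
  have hkind : ∀ j, g j ∈ S2 ∨ g j = U ∨ g j = ∅ := by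
    intro j
    rcases hg1 j with h | h
    · rcases Finset.mem_insert.1 h with h' | h'
      · exact Or.inr (Or.inl h')
      · exact Or.inl h'
    · exact Or.inr (Or.inr h)
  have hex : ∀ j, ∃ e : En G (g j),
      (⟨G, g j, e⟩ : Pc Q) ∈ (W ∪ Emp Q) ∪ UnP N (N * K + K) (W ∪ Emp Q) := by
    intro j
    rcases hkind j with h | h | h
    · obtain ⟨_, e, he⟩ := hW2 _ h
      exact ⟨e, Or.inl (Or.inl he)⟩
    · refine ⟨mkEn G (g j), Or.inr ?_⟩
      refine union_mem S1 N (N * K + K) ?_ hN (fun A hA B hB => hd A (Finset.mem_union_left _ hA) B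
        (Finset.mem_union_left _ hB)) (fun A hA => ⟨(hW1 A hA).1.trans (Nat.le_add_left _ _),
          (hW1 A hA).2⟩) _ ?_
      · intro x
        rw [h, hU]
      · rw [En.n_eq, h]
        omega
    · exact ⟨mkEn G (g j), Or.inl (Or.inr h)⟩
  choose eg heg using hex
  have hdg : ∀ j, G.d (g j) ≤ N * K := by
    intro j
    rcases hkind j with h | h | h
    · rw [(hW2 _ h).1]
      exact Nat.zero_le _
    · rw [h]
      exact hdU
    · have h2 : (mkEn G (g j)).n = 0 := emp_n (P := ⟨G, g j, mkEn G (g j)⟩) h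
      rw [En.n_eq] at h2
      omega
  refine ⟨?_, S.card, g, eg, ∅, ⟨?_, hg3, fun i => Finset.disjoint_empty_left _⟩, by simp, ?_, ?_⟩
  · show en.n ≤ _
    omega
  · intro x
    show x ∈ X ↔ _
    rw [hX]
    constructor
    · rintro ⟨A, hA, hx⟩
      right
      rcases Finset.mem_union.1 hA with hA | hA
      · obtain ⟨j, hj⟩ := hg2 U (Finset.mem_insert_self _ _)
        exact ⟨j, hj ▸ (hU x).2 ⟨A, hA, hx⟩⟩
      · obtain ⟨j, hj⟩ := hg2 A (Finset.mem_insert_of_mem hA)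
        exact ⟨j, hj ▸ hx⟩
    · rintro (h | ⟨j, hj⟩)
      · exact absurd h (Finset.notMem_empty _)
      · rcases hkind j with h | h | h
        · exact ⟨g j, Finset.mem_union_right _ h, hj⟩
        · rw [h] at hj
          obtain ⟨C, hC, hxC⟩ := (hU x).1 hj
          exact ⟨C, Finset.mem_union_left _ hC, hxC⟩
        · rw [h] at hj
          exact absurd hj (Finset.notMem_empty _)
  · intro j
    refine ⟨heg j, ?_⟩
    rw [En.n_eq]
    have := hdg j
    show G.d (g j) ≤ _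
    omega
  · intro e he i j hi hj
    by_contra hij
    have hdis := hg3 i j hij
    have key : ∀ i j, G.Touch (g i) e → G.Touch (g j) e → Disjoint (g i) (g j) → g i ∉ S2 := by
      intro i j hi hj hdis hiS
      have h1 := no_touch_out (hW2 _ hiS).1 he hi
      obtain ⟨x, hx, hxj⟩ := touch_end.1 hj
      exact Finset.disjoint_left.1 hdis (inner_end h1 hx) hxj
    have ne0 : ∀ i, G.Touch (g i) e → g i ≠ ∅ := by
      intro i hi h
      obtain ⟨x, _, hx⟩ := touch_end.1 hi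
      rw [h] at hx
      exact absurd hx (Finset.notMem_empty _)
    have hi' : g i = U := by
      rcases hkind i with h | h | h
      · exact absurd h (key i j hi hj hdis)
      · exact h
      · exact absurd h (ne0 i hi)
    have hj' : g j = U := by
      rcases hkind j with h | h | h
      · exact absurd h (key j i hj hi hdis.symm)
      · exact h
      · exact absurd h (ne0 j hj)
    obtain ⟨x, _, hx⟩ := touch_end.1 hi
    rw [hi', hj'] at hdis
    rw [hi'] at hx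
    exact Finset.disjoint_left.1 hdis hx hx

theorem free_pwo [Preorder Q] (N K : ℕ)
    {W : Set (Pc Q)} (hW : W.PartiallyWellOrderedOn Rp) :
    (HubsP 0 (N * K + K) ((W ∪ Emp Q) ∪ UnP N (N * K + K) (W ∪ Emp Q))).PartiallyWellOrderedOn Rp := by
  have hE : (W ∪ Emp Q).PartiallyWellOrderedOn Rp := hW.union emp_pwo
  exact hubs0_pwo (N * K + K) (hE.union (un_pwo N (N * K + K) hE))

end Pool.Agent.W2411c4
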