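import Pool.Agent.W_2411c4_h26.Slab

/-! Levels and slabs; lines and their colours. -/

set_option autoImplicit false

namespace Pool.Agent.W2411si

open Pool.Agent.W2411c4

variable {Q : Type}

open Gr

/-- levels with slabs between them -/
structure LS (G : Gr Q) where
  L : ℕ → Finset ℕ
  b : ℕ → ℕ
  mono : ∀ i, L i ⊆ L (i + 1)
  s : ∀ i, Slab G (L i) (L (i + 1)) (b i)

namespace LS

variable {G : Gr Q} (S : LS G)

/-- the edge `e` at level `z` passes to `f` at level `z + 1` -/
def T (z e f : ℕ) : Prop := (S.s z).thr e f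

/-- `e` at level `z` goes on to the level `z + 1` -/
def Go (z e : ℕ) : Prop := ∃ f, S.T z e f

/-- `f` at level `z + 1` comes from the level `z` -/
def Cm (z f : ℕ) : Prop := ∃ e, S.T z e f

/-- `e` is on a line at level `z` -/
def Line (z e : ℕ) : Prop := S.Go z e ∨ ∃ z', z = z' + 1 ∧ S.Cm z' e

theorem T_left {z e f : ℕ} (h : S.T z e f) : e ∈ G.bd (S.L z) := ((S.s z).thr_mem e f h).1

theorem T_right {z e f : ℕ} (h : S.T z e f) : f ∈ G.bd (S.L (z + 1)) := ((S.s z).thr_mem e f h).2

theorem line_mem {z e : ℕ} (h : S.Line z e) : e ∈ G.bd (S.L z) := by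
  rcases h with ⟨f, hf⟩ | ⟨z', rfl, e', he'⟩
  · exact S.T_left hf
  · exact S.T_right he'

theorem line_of_left {z e f : ℕ} (h : S.T z e f) : S.Line z e := Or.inl ⟨f, h⟩

theorem line_of_right {z e f : ℕ} (h : S.T z e f) : S.Line (z + 1) f := Or.inr ⟨z, rfl, e, h⟩

theorem line_succ {z e : ℕ} : S.Line (z + 1) e ↔ S.Go (z + 1) e ∨ S.Cm z e := by
  unfold Line
  constructor
  · rintro (h | ⟨z', hz, h⟩)
    · exact Or.inl h
    · have : z' = z := by omega
      subst this
      exact Or.inr h
  · rintro (h | h)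
    · exact Or.inl h
    · exact Or.inr ⟨z, rfl, h⟩

/-- the line through `e` at level `x` passes to `f` at level `z` -/
inductive Ct (S : LS G) (x e : ℕ) : ℕ → ℕ → Prop
  | refl : Ct S x e x e
  | step {z f g : ℕ} : Ct S x e z f → S.T z f g → Ct S x e (z + 1) g

variable {S}

theorem Ct.le {x e z f : ℕ} (h : Ct S x e z f) : x ≤ z := by
  induction h with
  | refl => exact le_rfl
  | step _ _ ih => omega

theorem Ct.self_eq {x e f : ℕ} (h : Ct S x e x f) : f = e := by
  cases h with
  | refl => rfl
  | step h1 _ =>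
    have := h1.le
    omega

theorem Ct.last {x e z g : ℕ} (h : Ct S x e (z + 1) g) (hx : x ≤ z) :
    ∃ f, Ct S x e z f ∧ S.T z f g := by
  cases h with
  | refl => omega
  | step h1 h2 => exact ⟨_, h1, h2⟩

theorem Ct.head {x e z g : ℕ} (h : Ct S x e z g) (hx : x < z) :
    ∃ f, S.T x e f ∧ Ct S (x + 1) f z g := by
  induction h with
  | refl => omega
  | @step z f g h1 h2 ih =>
    by_cases hz : x < z
    · obtain ⟨f', h3, h4⟩ := ih hz
      exact ⟨f', h3, Ct.step h4 h2⟩
    · have hxz : x = z := by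
        have := h1.le
        omega
      subst hxz
      have := h1.self_eq
      subst this
      exact ⟨g, h2, Ct.refl⟩

theorem Ct.cons {x e f z g : ℕ} (h0 : S.T x e f) (h : Ct S (x + 1) f z g) : Ct S x e z g := by
  induction h with
  | refl => exact Ct.step Ct.refl h0
  | step _ h2 ih => exact Ct.step ih h2

theorem Ct.fw_uniq {x e z f g : ℕ} (h : Ct S x e z f) (h' : Ct S x e z g) : f = g := by
  induction h generalizing g with
  | refl => exact (h'.self_eq).symm
  | @step z f g' h1 h2 ih =>
    obtain ⟨f', h3, h4⟩ := h'.last h1.le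
    have := ih h3
    subst this
    exact (S.s z).thr_left _ _ _ h2 h4

theorem Ct.bw_uniq {x e e' z g : ℕ} (h : Ct S x e z g) (h' : Ct S x e' z g) : e = e' := by
  induction h with
  | refl => exact h'.self_eq
  | @step z f g' h1 h2 ih =>
    obtain ⟨f', h3, h4⟩ := h'.last h1.le
    have h5 : f = f' := (S.s z).thr_right _ _ _ h2 h4
    subst h5
    exact ih h3

theorem Ct.col {col : ℕ → ℕ → ℕ} (hc : ∀ z e f, S.T z e f → col z e = col (z + 1) f)
    {x e z f : ℕ} (h : Ct S x e z f) : col x e = col z f := by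
  induction h with
  | refl => rfl
  | step _ h2 ih => exact ih.trans (hc _ _ _ h2)

theorem Ct.line {x e z f : ℕ} (h : Ct S x e z f) (he : S.Line x e) : S.Line z f := by
  induction h with
  | refl => exact he
  | step _ h2 _ => exact S.line_of_right h2

end LS

end Pool.Agent.W2411si
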