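import Pool.Agent.W_2411tw_h80.Lines
import Pool.Agent.W_2411c4_h59.Hubs

/-! Routing strands through a gap: the states. -/

set_option autoImplicit false

namespace Pool.Agent.W2411si

open Pool.Agent.W2411c4

variable {Q : Type}

open Gr

namespace LS

variable {G : Gr Q}

/-- the data of a gap between the levels `x < y`: strands `U`, their edges `σ u ∈ bd (L x)` and
`τ u ∈ bd (L y)` -/
structure GD (S : LS G) (col : ℕ → ℕ → ℕ) (m x y : ℕ) (U : Finset ℕ) (σ τ : ℕ → ℕ) : Prop where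
  xy : x < y
  col1 : ∀ z e f, S.T z e f → col z e = col (z + 1) f
  col2 : ∀ z e f, S.Line z e → S.Line z f → col z e = col z f → e = f
  cnt : ∀ z, ∀ T : Finset (ℕ × ℕ), (∀ p ∈ T, S.T z p.1 p.2) → T.card ≤ m
  smem : ∀ u ∈ U, σ u ∈ G.bd (S.L x)
  sinj : ∀ u ∈ U, ∀ u' ∈ U, σ u = σ u' → u = u'
  tmem : ∀ u ∈ U, τ u ∈ G.bd (S.L y)
  tinj : ∀ u ∈ U, ∀ u' ∈ U, τ u = τ u' → u = u'
  socc : ∀ e, S.Line x e → ∃ u ∈ U, σ u = e
  tocc : ∀ e, S.Line y e → ∃ u ∈ U, τ u = e
  cap : ∀ z, x ≤ z → z ≤ y → U.card ≤ G.d (S.L z)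
  big : 4 * m ≤ U.card
  cmp : ∀ u ∈ U, (S.Line x (σ u) ↔ S.Line y (τ u))
  cmpc : ∀ u ∈ U, S.Line x (σ u) → col x (σ u) = col y (τ u)

/-- the states at level `z` -/
structure St (S : LS G) (x y : ℕ) (U : Finset ℕ) (σ τ : ℕ → ℕ) (z : ℕ) (s : ℕ → ℕ) : Prop where
  mem : ∀ u ∈ U, s u ∈ G.bd (S.L z)
  inj : ∀ u ∈ U, ∀ u' ∈ U, s u = s u' → u = u'
  occ : ∀ e, S.Line z e → ∃ u ∈ U, s u = e
  fw : ∀ u ∈ U, S.Line x (σ u) → ∀ f, Ct S x (σ u) z f → s u = f
  bw : ∀ u ∈ U, S.Line x (σ u) → ∀ f, Ct S z f y (τ u) → s u = f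
  sp : ∀ u ∈ U, S.Line x (σ u) → S.Line z (s u) → Ct S x (σ u) z (s u) ∨ Ct S z (s u) y (τ u)

/-- one step from level `z` to level `z + 1` -/
structure Stp (S : LS G) (U : Finset ℕ) (z : ℕ) (s s' : ℕ → ℕ) : Prop where
  go : ∀ u ∈ U, ∀ f, S.T z (s u) f → s' u = f
  hub : ∀ u ∈ U, ¬ S.Go z (s u) → ¬ S.Cm z (s' u)

variable {S : LS G} {col : ℕ → ℕ → ℕ} {m x y : ℕ} {U : Finset ℕ} {σ τ : ℕ → ℕ}

theorem GD.base (h : GD S col m x y U σ τ) : St S x y U σ τ x σ where
  mem := h.smem
  inj := h.sinj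
  occ := h.socc
  fw := fun u _ _ f hf => hf.self_eq.symm
  bw := by
    intro u hu hl f hf
    obtain ⟨g, hg, hgy⟩ := hf.head h.xy
    obtain ⟨u', hu', rfl⟩ := h.socc f (S.line_of_left hg)
    have h1 : col x (σ u) = col x (σ u') := by
      rw [h.cmpc u hu hl, ← Ct.col h.col1 hf]
    exact h.col2 x _ _ hl (S.line_of_left hg) h1
  sp := fun u _ _ _ => Or.inl Ct.refl

/-- the last step -/
theorem GD.last (h : GD S col m x y U σ τ) {z : ℕ} {s : ℕ → ℕ} (hs : St S x y U σ τ z s)
    (hz : x ≤ z) (hzy : z + 1 = y) : Stp S U z s τ := by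
  have key : ∀ u ∈ U, ∀ f, S.T z (s u) f → τ u = f := by
    intro u hu f hf
    subst hzy
    obtain ⟨u', hu', rfl⟩ := h.tocc f (S.line_of_right hf)
    have hl : S.Line x (σ u') := (h.cmp u' hu').2 (S.line_of_right hf)
    have h1 := hs.bw u' hu' hl (s u) (Ct.step Ct.refl hf)
    rw [hs.inj u' hu' u hu h1]
  refine ⟨key, ?_⟩
  rintro u hu hgo ⟨e, he⟩
  obtain ⟨u', hu', rfl⟩ := hs.occ e (S.line_of_left he)
  have h1 := key u' hu' _ he
  have h2 := h.tinj u' hu' u hu h1
  rw [h2] at he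
  exact hgo ⟨_, he⟩

open Classical in
/-- the intermediate steps -/
theorem GD.step (h : GD S col m x y U σ τ) {z : ℕ} {s : ℕ → ℕ} (hs : St S x y U σ τ z s)
    (hz : x ≤ z) (hzy : z + 1 < y) : ∃ s', St S x y U σ τ (z + 1) s' ∧ Stp S U z s s' := by
  -- the strands that go on, the strands at the hub
  let Ug : Finset ℕ := U.filter fun u => S.Go z (s u)
  let Uh : Finset ℕ := U.filter fun u => ¬ S.Go z (s u)
  let cms : Finset ℕ := (G.bd (S.L (z + 1))).filter fun f => S.Cm z f
  let NL : Finset ℕ := (G.bd (S.L (z + 1))).filter fun f => S.Go (z + 1) f ∧ ¬ S.Cm z f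
  let OR : Finset ℕ := (G.bd (S.L (z + 1))).filter fun f => ¬ S.Go (z + 1) f ∧ ¬ S.Cm z f
  let Yf : ℕ → ℕ → Prop := fun u f => S.Line x (σ u) ∧ Ct S (z + 1) f y (τ u)
  let UY : Finset ℕ := Uh.filter fun u => ∃ f, Yf u f
  let UO : Finset ℕ := Uh.filter fun u => ¬ S.Line x (σ u)
  have memUg : ∀ u, u ∈ Ug ↔ u ∈ U ∧ S.Go z (s u) := fun u => Finset.mem_filter
  have memUh : ∀ u, u ∈ Uh ↔ u ∈ U ∧ ¬ S.Go z (s u) := fun u => Finset.mem_filter
  have memcms : ∀ f, f ∈ cms ↔ S.Cm z f := by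
    intro f
    refine ⟨fun hf => (Finset.mem_filter.1 hf).2, fun hf => Finset.mem_filter.2 ⟨?_, hf⟩⟩
    obtain ⟨e, he⟩ := hf
    exact S.T_right he
  have memNL : ∀ f, f ∈ NL ↔ S.Go (z + 1) f ∧ ¬ S.Cm z f := by
    intro f
    refine ⟨fun hf => (Finset.mem_filter.1 hf).2, fun hf => Finset.mem_filter.2 ⟨?_, hf⟩⟩
    obtain ⟨g, hg⟩ := hf.1
    exact S.T_left hg
  have memOR : ∀ f, f ∈ OR ↔ f ∈ G.bd (S.L (z + 1)) ∧ ¬ S.Go (z + 1) f ∧ ¬ S.Cm z f := fun f =>
    Finset.mem_filter
  have memUY : ∀ u, u ∈ UY ↔ u ∈ Uh ∧ ∃ f, Yf u f := fun u => Finset.mem_filter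
  have memUO : ∀ u, u ∈ UO ↔ u ∈ Uh ∧ ¬ S.Line x (σ u) := fun u => Finset.mem_filter
  -- the strand map on `Ug`
  choose! g hg using fun u (hu : S.Go z (s u)) => hu
  have hg' : ∀ u, S.Go z (s u) → S.T z (s u) (g u) := hg
  -- the strand map on `UY`
  choose! yf hyf using fun u (hu : ∃ f, Yf u f) => hu
  have hyf' : ∀ u, (∃ f, Yf u f) → Yf u (yf u) := hyf
  -- target lines of strands at the hub are new
  have hYnew : ∀ u ∈ UY, yf u ∈ NL := by
    intro u hu
    obtain ⟨huh, hex⟩ := (memUY u).1 hu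
    obtain ⟨huU, hngo⟩ := (memUh u).1 huh
    obtain ⟨hl, hct⟩ := hyf' u hex
    refine (memNL _).2 ⟨?_, ?_⟩
    · obtain ⟨f', hf', _⟩ := hct.head hzy
      exact ⟨f', hf'⟩
    · rintro ⟨e, he⟩
      have h1 := hs.bw u huU hl e (Ct.cons he hct)
      rw [← h1] at he
      exact hngo ⟨_, he⟩
  have hYinj : ∀ u ∈ UY, ∀ u' ∈ UY, yf u = yf u' → u = u' := by
    intro u hu u' hu' huu
    obtain ⟨huh, hex⟩ := (memUY u).1 hu
    obtain ⟨huh', hex'⟩ := (memUY u').1 hu'
    have h1 := (hyf' u hex).2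
    have h2 := (hyf' u' hex').2
    rw [huu] at h1
    exact h.tinj u ((memUh u).1 huh).1 u' ((memUh u').1 huh').1 (h1.fw_uniq h2)
  let NL' : Finset ℕ := NL \ UY.image yf
  -- counting
  have c1 : NL.card ≤ m := by
    choose! nx hnx using fun f (hf : S.Go (z + 1) f) => hf
    have h1 := h.cnt (z + 1) (NL.image fun f => (f, nx f)) (by
      intro p hp
      obtain ⟨f, hf, rfl⟩ := Finset.mem_image.1 hp
      exact hnx f ((memNL f).1 hf).1)
    rw [Finset.card_image_of_injective _ (fun a b hab => (Prod.mk.inj hab).1)] at h1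
    exact h1
  have c2 : Ug.card ≤ m := by
    have h1 := h.cnt z (Ug.image fun u => (s u, g u)) (by
      intro p hp
      obtain ⟨u, hu, rfl⟩ := Finset.mem_image.1 hp
      exact hg' u ((memUg u).1 hu).2)
    rw [Finset.card_image_of_injOn] at h1
    · exact h1
    · intro u hu u' hu' huu
      exact hs.inj u ((memUg u).1 hu).1 u' ((memUg u').1 hu').1 (Prod.mk.inj huu).1
  have c3 : (U.filter fun u => S.Line x (σ u)).card ≤ 2 * m := by
    let A1 : Finset ℕ := U.filter fun u => S.Go x (σ u)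
    let A2 : Finset ℕ := U.filter fun u => ∃ x', x = x' + 1 ∧ S.Cm x' (σ u)
    have hA : (U.filter fun u => S.Line x (σ u)) ⊆ A1 ∪ A2 := by
      intro u hu
      obtain ⟨h1, h2⟩ := Finset.mem_filter.1 hu
      rcases h2 with h2 | h2
      · exact Finset.mem_union_left _ (Finset.mem_filter.2 ⟨h1, h2⟩)
      · exact Finset.mem_union_right _ (Finset.mem_filter.2 ⟨h1, h2⟩)
    have hA1 : A1.card ≤ m := by
      choose! nx hnx using fun u (hu : S.Go x (σ u)) => hu
      have h1 := h.cnt x (A1.image fun u => (σ u, nx u)) (by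
        intro p hp
        obtain ⟨u, hu, rfl⟩ := Finset.mem_image.1 hp
        exact hnx u (Finset.mem_filter.1 hu).2)
      rw [Finset.card_image_of_injOn] at h1
      · exact h1
      · intro u hu u' hu' huu
        exact h.sinj u (Finset.mem_filter.1 hu).1 u' (Finset.mem_filter.1 hu').1
          (Prod.mk.inj huu).1
    have hA2 : A2.card ≤ m := by
      rcases Nat.eq_zero_or_pos x with hx0 | hx0
      · have h1 : A2 = ∅ := by
          rw [Finset.filter_eq_empty_iff]
          rintro u _ ⟨x', hx', _⟩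
          omega
        rw [h1]
        exact Nat.zero_le _
      · obtain ⟨x', hx'⟩ : ∃ x', x = x' + 1 := ⟨x - 1, by omega⟩
        have hcm : ∀ u ∈ A2, S.Cm x' (σ u) := by
          intro u hu
          obtain ⟨_, x'', hx'', h2⟩ := Finset.mem_filter.1 hu
          have : x'' = x' := by omega
          subst this
          exact h2
        choose! nx hnx using fun u (hu : S.Cm x' (σ u)) => hu
        have h1 := h.cnt x' (A2.image fun u => (nx u, σ u)) (by
          intro p hp
          obtain ⟨u, hu, rfl⟩ := Finset.mem_image.1 hp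
          exact hnx u (hcm u hu))
        rw [Finset.card_image_of_injOn] at h1
        · exact h1
        · intro u hu u' hu' huu
          exact h.sinj u (Finset.mem_filter.1 hu).1 u' (Finset.mem_filter.1 hu').1
            (Prod.mk.inj huu).2
    have h1 := (Finset.card_le_card hA).trans (Finset.card_union_le _ _)
    omega
  have c4 : U.card ≤ (U.filter fun u => S.Line x (σ u)).card + Ug.card + UO.card := by
    have h1 : U ⊆ ((U.filter fun u => S.Line x (σ u)) ∪ Ug) ∪ UO := by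
      intro u hu
      by_cases h1 : S.Line x (σ u)
      · exact Finset.mem_union_left _ (Finset.mem_union_left _ (Finset.mem_filter.2 ⟨hu, h1⟩))
      · by_cases h2 : S.Go z (s u)
        · exact Finset.mem_union_left _ (Finset.mem_union_right _ ((memUg u).2 ⟨hu, h2⟩))
        · exact Finset.mem_union_right _ ((memUO u).2 ⟨(memUh u).2 ⟨hu, h2⟩, h1⟩)
    have h2 := (Finset.card_le_card h1).trans (Finset.card_union_le _ _)
    have h3 := Finset.card_union_le (U.filter fun u => S.Line x (σ u)) Ug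
    omega
  have hbig := h.big
  have cNL' : NL'.card ≤ UO.card := by
    have h1 : NL'.card ≤ NL.card := Finset.card_le_card Finset.sdiff_subset
    omega
  obtain ⟨UN, hUN, hUNc⟩ := Finset.exists_subset_card_eq cNL'
  have hUYUO : ∀ u ∈ UY, u ∉ UO := by
    intro u hu hu'
    obtain ⟨_, f, hf, _⟩ := (memUY u).1 hu
    exact ((memUO u).1 hu').2 hf
  obtain ⟨f1, hf1, hf1i⟩ := exists_inj UN NL' hUNc.le
  have hf1s : ∀ f ∈ NL', ∃ u ∈ UN, f1 u = f := by
    intro f hf
    have h1 : UN.image f1 = NL' := by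
      apply Finset.eq_of_subset_of_card_le
      · intro f hf
        obtain ⟨u, hu, rfl⟩ := Finset.mem_image.1 hf
        exact hf1 u hu
      · rw [Finset.card_image_of_injOn (fun u hu u' hu' => hf1i u hu u' hu'), hUNc]
    rw [← h1] at hf
    obtain ⟨u, hu, rfl⟩ := Finset.mem_image.1 hf
    exact ⟨u, hu, rfl⟩
  let UR : Finset ℕ := Uh \ (UY ∪ UN)
  have cms_le : cms.card ≤ Ug.card := by
    have h1 : cms ⊆ Ug.image g := by
      intro f hf
      obtain ⟨e, he⟩ := (memcms f).1 hf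
      obtain ⟨u, hu, rfl⟩ := hs.occ e (S.line_of_left he)
      refine Finset.mem_image.2 ⟨u, (memUg u).2 ⟨hu, f, he⟩, ?_⟩
      exact (S.s z).thr_left _ _ _ (hg' u ⟨f, he⟩) he
    exact (Finset.card_le_card h1).trans Finset.card_image_le
  have cUR : UR.card ≤ OR.card := by
    have h1 : (UY ∪ UN).card = NL.card := by
      have hd : Disjoint UY UN := Finset.disjoint_left.2 fun u hu hu' => hUYUO u hu (hUN hu')
      rw [Finset.card_union_of_disjoint hd, hUNc]
      have h2 : (UY.image yf).card = UY.card :=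
        Finset.card_image_of_injOn fun u hu u' hu' => hYinj u hu u' hu'
      have h3 : UY.image yf ⊆ NL := by
        intro f hf
        obtain ⟨u, hu, rfl⟩ := Finset.mem_image.1 hf
        exact hYnew u hu
      have h4 := Finset.card_sdiff_of_subset h3
      have h5 := Finset.card_le_card h3
      have h6 : NL'.card = (NL \ UY.image yf).card := rfl
      omega
    have h2 : UY ∪ UN ⊆ Uh := by
      apply Finset.union_subset (Finset.filter_subset _ _)
      exact hUN.trans (Finset.filter_subset _ _)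
    have h3 := Finset.card_sdiff_of_subset h2
    have h3' := Finset.card_le_card h2
    have h4 : Ug.card + Uh.card = U.card := Finset.card_filter_add_card_filter_not _
    have h5 : G.bd (S.L (z + 1)) ⊆ (cms ∪ NL) ∪ OR := by
      intro f hf
      by_cases h6 : S.Cm z f
      · exact Finset.mem_union_left _ (Finset.mem_union_left _ ((memcms f).2 h6))
      · by_cases h7 : S.Go (z + 1) f
        · exact Finset.mem_union_left _ (Finset.mem_union_right _ ((memNL f).2 ⟨h7, h6⟩))
        · exact Finset.mem_union_right _ ((memOR f).2 ⟨hf, h7, h6⟩)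
    have h6 := (Finset.card_le_card h5).trans (Finset.card_union_le _ _)
    have h7 := Finset.card_union_le cms NL
    have h8 := h.cap (z + 1) (by omega) (by omega)
    have h9 : G.d (S.L (z + 1)) = (G.bd (S.L (z + 1))).card := rfl
    have h10 : UR.card = (Uh \ (UY ∪ UN)).card := rfl
    omega
  obtain ⟨f2, hf2, hf2i⟩ := exists_inj UR OR cUR
  -- the new state
  let s' : ℕ → ℕ := fun u => if S.Go z (s u) then g u else if u ∈ UY then yf u else
    if u ∈ UN then f1 u else f2 u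
  have e1 : ∀ u, S.Go z (s u) → s' u = g u := fun u hu => if_pos hu
  have ngo : ∀ u ∈ Uh, ¬ S.Go z (s u) := fun u hu => ((memUh u).1 hu).2
  have e2 : ∀ u ∈ UY, s' u = yf u := by
    intro u hu
    have h1 := ngo u ((memUY u).1 hu).1
    simp only [s', if_neg h1, if_pos hu]
  have e3 : ∀ u ∈ UN, s' u = f1 u := by
    intro u hu
    have h1 := ngo u ((memUO u).1 (hUN hu)).1
    have h2 : u ∉ UY := fun h' => hUYUO u h' (hUN hu)
    simp only [s', if_neg h1, if_neg h2, if_pos hu]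
  have e4 : ∀ u ∈ UR, s' u = f2 u := by
    intro u hu
    obtain ⟨h1, h2⟩ := Finset.mem_sdiff.1 hu
    rw [Finset.mem_union, not_or] at h2
    simp only [s', if_neg (ngo u h1), if_neg h2.1, if_neg h2.2]
  have kind : ∀ u ∈ U, (S.Go z (s u) ∧ s' u = g u ∧ S.Cm z (s' u)) ∨
      (u ∈ UY ∧ s' u = yf u ∧ s' u ∈ UY.image yf ∧ s' u ∈ NL) ∨ (u ∈ UN ∧ s' u = f1 u ∧ s' u ∈ NL') ∨
      (u ∈ UR ∧ s' u = f2 u ∧ s' u ∈ OR) := by
    intro u hu
    by_cases h1 : S.Go z (s u)
    · left
      refine ⟨h1, e1 u h1, ?_⟩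
      rw [e1 u h1]
      exact ⟨_, hg' u h1⟩
    · right
      have h2 : u ∈ Uh := (memUh u).2 ⟨hu, h1⟩
      by_cases h3 : u ∈ UY
      · left
        refine ⟨h3, e2 u h3, ?_, ?_⟩
        · rw [e2 u h3]
          exact Finset.mem_image_of_mem _ h3
        · rw [e2 u h3]
          exact hYnew u h3
      · right
        by_cases h4 : u ∈ UN
        · left
          refine ⟨h4, e3 u h4, ?_⟩
          rw [e3 u h4]
          exact hf1 u h4
        · right
          have h5 : u ∈ UR := Finset.mem_sdiff.2 ⟨h2, by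
            rw [Finset.mem_union, not_or]
            exact ⟨h3, h4⟩⟩
          refine ⟨h5, e4 u h5, ?_⟩
          rw [e4 u h5]
          exact hf2 u h5
  have nl' : ∀ f ∈ NL', f ∈ NL ∧ f ∉ UY.image yf := fun f hf => Finset.mem_sdiff.1 hf
  refine ⟨s', ⟨?_, ?_, ?_, ?_, ?_, ?_⟩, ⟨?_, ?_⟩⟩
  · -- mem
    intro u hu
    rcases kind u hu with ⟨h1, h2, _⟩ | ⟨_, _, _, h3⟩ | ⟨_, _, h3⟩ | ⟨_, _, h3⟩
    · rw [h2]
      exact S.T_right (hg' u h1)
    · obtain ⟨f', hf'⟩ := ((memNL _).1 h3).1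
      exact S.T_left hf'
    · obtain ⟨f', hf'⟩ := ((memNL _).1 (nl' _ h3).1).1
      exact S.T_left hf'
    · exact ((memOR _).1 h3).1
  · -- inj
    intro u hu u' hu' huu
    rcases kind u hu with ⟨h1, h2, h3⟩ | ⟨h1, h2, h3, h4⟩ | ⟨h1, h2, h3⟩ | ⟨h1, h2, h3⟩ <;>
      rcases kind u' hu' with ⟨k1, k2, k3⟩ | ⟨k1, k2, k3, k4⟩ | ⟨k1, k2, k3⟩ | ⟨k1, k2, k3⟩
    · have h4 := hg' u h1
      have h5 := hg' u' k1
      rw [← h2, huu, k2] at h4
      exact hs.inj u hu u' hu' ((S.s z).thr_right _ _ _ h4 h5)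
    · exact absurd (huu ▸ h3) ((memNL _).1 k4).2
    · exact absurd (huu ▸ h3) ((memNL _).1 (nl' _ k3).1).2
    · exact absurd (huu ▸ h3) ((memOR _).1 k3).2.2
    · exact absurd (huu.symm ▸ k3) ((memNL _).1 h4).2
    · exact hYinj u h1 u' k1 (by rw [← h2, ← k2, huu])
    · exact absurd (huu ▸ h3) (nl' _ k3).2
    · exact absurd ((memNL _).1 (huu ▸ h4)).1 ((memOR _).1 k3).2.1
    · exact absurd (huu.symm ▸ k3) ((memNL _).1 (nl' _ h3).1).2
    · exact absurd (huu.symm ▸ k3) (nl' _ h3).2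
    · exact hf1i u h1 u' k1 (by rw [← h2, ← k2, huu])
    · exact absurd ((memNL _).1 (nl' _ (huu ▸ h3)).1).1 ((memOR _).1 k3).2.1
    · exact absurd (huu.symm ▸ k3) ((memOR _).1 h3).2.2
    · exact absurd ((memNL _).1 (huu.symm ▸ k4)).1 ((memOR _).1 h3).2.1
    · exact absurd ((memNL _).1 (nl' _ (huu.symm ▸ k3)).1).1 ((memOR _).1 h3).2.1
    · exact hf2i u h1 u' k1 (by rw [← h2, ← k2, huu])
  · -- occ
    intro e he
    by_cases hc : S.Cm z e
    · obtain ⟨e', he'⟩ := hc
      obtain ⟨u, hu, rfl⟩ := hs.occ e' (S.line_of_left he')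
      refine ⟨u, hu, ?_⟩
      rw [e1 u ⟨e, he'⟩]
      exact (S.s z).thr_left _ _ _ (hg' u ⟨e, he'⟩) he'
    · have hgo : S.Go (z + 1) e := (line_succ S |>.1 he).resolve_right hc
      have hNL : e ∈ NL := (memNL e).2 ⟨hgo, hc⟩
      by_cases hY : e ∈ UY.image yf
      · obtain ⟨u, hu, rfl⟩ := Finset.mem_image.1 hY
        exact ⟨u, ((memUh u).1 ((memUY u).1 hu).1).1, e2 u hu⟩
      · obtain ⟨u, hu, rfl⟩ := hf1s e (Finset.mem_sdiff.2 ⟨hNL, hY⟩)
        exact ⟨u, ((memUh u).1 ((memUO u).1 (hUN hu)).1).1, e3 u hu⟩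
  · -- fw
    intro u hu hl f hf
    obtain ⟨e, he, hef⟩ := hf.last hz
    have h1 := hs.fw u hu hl e he
    rw [← h1] at hef
    rw [e1 u ⟨f, hef⟩]
    exact (S.s z).thr_left _ _ _ (hg' u ⟨f, hef⟩) hef
  · -- bw
    intro u hu hl f hf
    by_cases hgo : S.Go z (s u)
    · rw [e1 u hgo]
      have h1 := hg' u hgo
      rcases hs.sp u hu hl (S.line_of_left h1) with h2 | h2
      · have h3 : col (z + 1) (g u) = col (z + 1) f := by
          rw [← Ct.col h.col1 (Ct.step h2 h1), h.cmpc u hu hl, ← Ct.col h.col1 hf]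
        have h4 : S.Line (z + 1) f := by
          obtain ⟨f', hf', _⟩ := hf.head hzy
          exact S.line_of_left hf'
        exact h.col2 (z + 1) _ _ (S.line_of_right h1) h4 h3
      · obtain ⟨g', h3, h4⟩ := h2.head (by omega)
        have h5 : g u = g' := (S.s z).thr_left _ _ _ h1 h3
        rw [h5]
        exact h4.bw_uniq hf
    · have h1 : u ∈ UY := (memUY u).2 ⟨(memUh u).2 ⟨hu, hgo⟩, f, hl, hf⟩
      rw [e2 u h1]
      exact (hyf' u ⟨f, hl, hf⟩).2.bw_uniq hf
  · -- sp
    intro u hu hl hline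
    rcases kind u hu with ⟨h1, h2, _⟩ | ⟨h1, h2, _, _⟩ | ⟨h1, _, _⟩ | ⟨_, _, h3⟩
    · have h3 := hg' u h1
      rw [h2]
      rcases hs.sp u hu hl (S.line_of_left h3) with h4 | h4
      · exact Or.inl (Ct.step h4 h3)
      · right
        obtain ⟨g', h5, h6⟩ := h4.head (by omega)
        have h7 : g u = g' := (S.s z).thr_left _ _ _ h3 h5
        rw [h7]
        exact h6
    · right
      rw [h2]
      exact (hyf' u ((memUY u).1 h1).2).2
    · exact absurd hl ((memUO u).1 (hUN h1)).2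
    · obtain ⟨_, h4, h5⟩ := (memOR _).1 h3
      rcases (line_succ S).1 hline with h6 | h6
      · exact absurd h6 h4
      · exact absurd h6 h5
  · -- go
    intro u hu f hf
    rw [e1 u ⟨f, hf⟩]
    exact (S.s z).thr_left _ _ _ (hg' u ⟨f, hf⟩) hf
  · -- hub
    intro u hu hgo
    rcases kind u hu with ⟨h1, _, _⟩ | ⟨_, _, _, h3⟩ | ⟨_, _, h3⟩ | ⟨_, _, h3⟩
    · exact absurd h1 hgo
    · exact ((memNL _).1 h3).2
    · exact ((memNL _).1 (nl' _ h3).1).2
    · exact ((memOR _).1 h3).2.2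

/-- states for all levels of the gap -/
theorem GD.states (h : GD S col m x y U σ τ) : ∃ st : ℕ → ℕ → ℕ, st x = σ ∧ st y = τ ∧
    (∀ z, x ≤ z → z < y → St S x y U σ τ z (st z)) ∧
    ∀ z, x ≤ z → z < y → Stp S U z (st z) (st (z + 1)) := by
  classical
  -- states up to level `x + n`
  have key : ∀ n, x + n < y → ∃ st : ℕ → ℕ → ℕ, st x = σ ∧
      (∀ z, x ≤ z → z ≤ x + n → St S x y U σ τ z (st z)) ∧
      ∀ z, x ≤ z → z < x + n → Stp S U z (st z) (st (z + 1)) := by
    intro n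
    induction n with
    | zero =>
      intro _
      refine ⟨fun _ => σ, rfl, ?_, ?_⟩
      · intro z h1 h2
        have : z = x := by omega
        subst this
        exact h.base
      · intro z h1 h2
        omega
    | succ n ih =>
      intro hn
      obtain ⟨st, h1, h2, h3⟩ := ih (by omega)
      obtain ⟨s', h4, h5⟩ := h.step (h2 (x + n) (by omega) le_rfl) (by omega) (by omega)
      refine ⟨fun z => if z = x + n + 1 then s' else st z, ?_, ?_, ?_⟩
      · show (if x = x + n + 1 then s' else st x) = σ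
        rw [if_neg (by omega)]
        exact h1
      · intro z h6 h7
        by_cases hz : z = x + n + 1
        · subst hz
          simp only [if_true]
          exact h4
        · simp only [if_neg hz]
          exact h2 z h6 (by omega)
      · intro z h6 h7
        by_cases hz : z + 1 = x + n + 1
        · have hz' : z = x + n := by omega
          subst hz'
          have h8 : ¬ (x + n = x + n + 1) := by omega
          simp only [if_true, if_neg h8]
          exact h5
        · have h8 : ¬ (z = x + n + 1) := by omega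
          simp only [if_neg hz, if_neg h8]
          exact h3 z h6 (by omega)
  have hxy := h.xy
  obtain ⟨st, h1, h2, h3⟩ := key (y - x - 1) (by omega)
  refine ⟨fun z => if z = y then τ else st z, ?_, ?_, ?_, ?_⟩
  · show (if x = y then τ else st x) = σ
    rw [if_neg (by omega)]
    exact h1
  · simp only [if_true]
  · intro z h4 h5
    have h6 : ¬ z = y := by omega
    simp only [if_neg h6]
    exact h2 z h4 (by omega)
  · intro z h4 h5
    have h6 : ¬ z = y := by omega
    simp only [if_neg h6]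
    by_cases hz : z + 1 = y
    · simp only [if_pos hz]
      exact h.last (h2 z h4 (by omega)) h4 hz
    · simp only [if_neg hz]
      exact h3 z h4 (by omega)

end LS

end Pool.Agent.W2411si
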