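import Pool.Agent.W_2411tw_h80.Route

/-! Routing strands through a gap: the edge sets. -/

set_option autoImplicit false

namespace Pool.Agent.W2411si

open Pool.Agent.W2411c4

variable {Q : Type}

open Gr

namespace LS

variable {G : Gr Q} {S : LS G} {col : ℕ → ℕ → ℕ} {m x y : ℕ} {U : Finset ℕ} {σ τ : ℕ → ℕ}

theorem L_mono (S : LS G) {i j : ℕ} (h : i ≤ j) : S.L i ⊆ S.L j := by
  induction j, h using Nat.le_induction with
  | base => exact Finset.Subset.refl _
  | succ j _ ih => exact ih.trans (S.mono j)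

/-- an edge that crosses two consecutive levels passes to itself -/
theorem T_self {z g : ℕ} (h1 : g ∈ G.bd (S.L z)) (h2 : g ∈ G.bd (S.L (z + 1))) : S.T z g g := by
  by_contra hcon
  exact Set.disjoint_left.1 ((S.s z).disjT g h1 g h2 hcon) ((S.s z).self g h1) ((S.s z).self' g h2)

/-- an edge that crosses two levels crosses all levels in between -/
theorem cross_between {z v w g : ℕ} (h1 : G.Cross (S.L z) g) (h2 : G.Cross (S.L w) g) (hzv : z ≤ v)
    (hvw : v ≤ w) : G.Cross (S.L v) g := by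
  have m1 := S.L_mono hzv
  have m2 := S.L_mono hvw
  unfold Gr.Cross at *
  rcases h1 with ⟨a1, a2⟩ | ⟨a1, a2⟩ <;> rcases h2 with ⟨b1, b2⟩ | ⟨b1, b2⟩
  · exact Or.inl ⟨m1 a1, fun h => b2 (m2 h)⟩
  · exact absurd (m2 (m1 a1)) b1
  · exact absurd (m2 (m1 a2)) b2
  · exact Or.inr ⟨fun h => b1 (m2 h), m1 a2⟩

/-- edges inside a slab cross no level -/
theorem inner_no_cross {z w g : ℕ} (h : G.Inner (S.L (z + 1) \ S.L z) g) : ¬ G.Cross (S.L w) g := by
  intro hc
  obtain ⟨h1, h2⟩ := h
  obtain ⟨a1, a2⟩ := Finset.mem_sdiff.1 h1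
  obtain ⟨b1, b2⟩ := Finset.mem_sdiff.1 h2
  rcases Nat.lt_or_ge z w with hw | hw
  · have m1 := S.L_mono (show z + 1 ≤ w by omega)
    rcases hc with ⟨c1, c2⟩ | ⟨c1, c2⟩
    · exact c2 (m1 b1)
    · exact c1 (m1 a1)
  · have m1 := S.L_mono hw
    rcases hc with ⟨c1, c2⟩ | ⟨c1, c2⟩
    · exact a2 (m1 c1)
    · exact b2 (m1 c2)

/-- the routes -/
theorem GD.route (h : GD S col m x y U σ τ) : ∃ Ψ : ℕ → Set ℕ,
    (∀ u ∈ U, σ u ∈ Ψ u ∧ τ u ∈ Ψ u) ∧
    (∀ u ∈ U, ∀ g ∈ Ψ u, g ∈ G.E ∧ (g = σ u ∨ g = τ u ∨ G.Inner (S.L y \ S.L x) g)) ∧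
    (∀ u ∈ U, ∀ g ∈ Ψ u, G.Cross (S.L x) g → g = σ u) ∧
    (∀ u ∈ U, ∀ g ∈ Ψ u, G.Cross (S.L y) g → g = τ u) ∧
    (∀ u ∈ U, ∀ a b, G.Inc (σ u) a → G.Inc (τ u) b → G.Conn (Ψ u) a b) ∧
    (∀ u ∈ U, ∀ u' ∈ U, u ≠ u' → Disjoint (Ψ u) (Ψ u')) := by
  obtain ⟨st, hx, hy, hst, hstp⟩ := h.states
  have hxy := h.xy
  -- states are injective maps to the boundaries, up to `y`
  have hmem : ∀ z, x ≤ z → z ≤ y → ∀ u ∈ U, st z u ∈ G.bd (S.L z) := by
    intro z h1 h2 u hu
    rcases Nat.lt_or_ge z y with h3 | h3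
    · exact (hst z h1 h3).mem u hu
    · have : z = y := by omega
      rw [this, hy]
      exact h.tmem u hu
  have hinj : ∀ z, x ≤ z → z ≤ y → ∀ u ∈ U, ∀ u' ∈ U, st z u = st z u' → u = u' := by
    intro z h1 h2 u hu u' hu'
    rcases Nat.lt_or_ge z y with h3 | h3
    · exact (hst z h1 h3).inj u hu u' hu'
    · have : z = y := by omega
      rw [this, hy]
      exact h.tinj u hu u' hu'
  -- if the state at `z + 1` comes from `e` then `e` is the state at `z`
  have hback : ∀ z, x ≤ z → z < y → ∀ u ∈ U, ∀ e, S.T z e (st (z + 1) u) → st z u = e := by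
    intro z h1 h2 u hu e he
    by_cases hgo : S.Go z (st z u)
    · obtain ⟨f, hf⟩ := hgo
      have h3 := (hstp z h1 h2).go u hu f hf
      rw [← h3] at hf
      exact (S.s z).thr_right _ _ _ hf he
    · exact absurd ⟨e, he⟩ ((hstp z h1 h2).hub u hu hgo)
  -- long edges
  have hlong : ∀ z w, x ≤ z → z ≤ y → x ≤ w → w ≤ y → ∀ u ∈ U, G.Cross (S.L w) (st z u) →
      st w u = st z u := by
    intro z w h1 h2 h3 h4 u hu hc
    have hE : st z u ∈ G.E := (G.mem_bd.1 (hmem z h1 h2 u hu)).1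
    have hcz : G.Cross (S.L z) (st z u) := (G.mem_bd.1 (hmem z h1 h2 u hu)).2
    rcases le_total z w with hzw | hwz
    · have key : ∀ n, z + n ≤ w → st (z + n) u = st z u := by
        intro n
        induction n with
        | zero => intro _; rfl
        | succ n ih =>
          intro hn
          have e1 := ih (by omega)
          have c1 : st z u ∈ G.bd (S.L (z + n)) :=
            G.mem_bd.2 ⟨hE, cross_between hcz hc (by omega) (by omega)⟩
          have c2 : st z u ∈ G.bd (S.L (z + n + 1)) :=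
            G.mem_bd.2 ⟨hE, cross_between hcz hc (by omega) (by omega)⟩
          have t1 := T_self c1 c2
          have h5 := (hstp (z + n) (by omega) (by omega)).go u hu (st z u) (by rw [e1]; exact t1)
          exact h5
      have := key (w - z) (by omega)
      rwa [show z + (w - z) = w by omega] at this
    · have key : ∀ n, w + n ≤ z → st (z - n) u = st z u := by
        intro n
        induction n with
        | zero => intro _; rfl
        | succ n ih =>
          intro hn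
          have e1 := ih (by omega)
          have c1 : st z u ∈ G.bd (S.L (z - (n + 1))) :=
            G.mem_bd.2 ⟨hE, cross_between hc hcz (by omega) (by omega)⟩
          have c2 : st z u ∈ G.bd (S.L (z - (n + 1) + 1)) :=
            G.mem_bd.2 ⟨hE, cross_between hc hcz (by omega) (by omega)⟩
          have t1 := T_self c1 c2
          refine hback (z - (n + 1)) (by omega) (by omega) u hu (st z u) ?_
          rw [show z - (n + 1) + 1 = z - n by omega, e1]
          rw [show z - (n + 1) + 1 = z - n by omega] at c2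
          exact t1
      have := key (z - w) (by omega)
      rwa [show z - (z - w) = w by omega] at this
  let Ψ : ℕ → Set ℕ := fun u => {g | ∃ z, x ≤ z ∧ z < y ∧
    (g ∈ (S.s z).P (st z u) ∨ g ∈ (S.s z).P' (st (z + 1) u))}
  -- kinds of edges
  have kind : ∀ u ∈ U, ∀ z, x ≤ z → z < y → ∀ g,
      (g ∈ (S.s z).P (st z u) ∨ g ∈ (S.s z).P' (st (z + 1) u)) →
      g ∈ G.E ∧ (g = st z u ∨ g = st (z + 1) u ∨ G.Inner (S.L (z + 1) \ S.L z) g) := by
    intro u hu z h1 h2 g hg
    rcases hg with hg | hg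
    · obtain ⟨h3, h4⟩ := (S.s z).sub _ (hmem z h1 h2.le u hu) g hg
      refine ⟨h3, ?_⟩
      rcases h4 with h4 | h4 | h4
      · exact Or.inl h4
      · exact Or.inr (Or.inr h4)
      · exact Or.inr (Or.inl ((hstp z h1 h2).go u hu g h4).symm)
    · obtain ⟨h3, h4⟩ := (S.s z).sub' _ (hmem (z + 1) (by omega) h2 u hu) g hg
      refine ⟨h3, ?_⟩
      rcases h4 with h4 | h4 | h4
      · exact Or.inr (Or.inl h4)
      · exact Or.inr (Or.inr h4)
      · exact Or.inl (hback z h1 h2 u hu g h4).symm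
  have kind' : ∀ u ∈ U, ∀ g ∈ Ψ u, g ∈ G.E ∧ ((∃ z, x ≤ z ∧ z ≤ y ∧ g = st z u) ∨
      ∃ z, x ≤ z ∧ z < y ∧ G.Inner (S.L (z + 1) \ S.L z) g ∧
        (g ∈ (S.s z).P (st z u) ∨ g ∈ (S.s z).P' (st (z + 1) u))) := by
    rintro u hu g ⟨z, h1, h2, h3⟩
    obtain ⟨h4, h5⟩ := kind u hu z h1 h2 g h3
    refine ⟨h4, ?_⟩
    rcases h5 with h5 | h5 | h5
    · exact Or.inl ⟨z, h1, h2.le, h5⟩
    · exact Or.inl ⟨z + 1, by omega, by omega, h5⟩
    · exact Or.inr ⟨z, h1, h2, h5, h3⟩
  have hcx : ∀ u ∈ U, ∀ g ∈ Ψ u, G.Cross (S.L x) g → g = σ u := by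
    intro u hu g hg hc
    rcases (kind' u hu g hg).2 with ⟨z, h1, h2, rfl⟩ | ⟨z, h1, h2, h3, _⟩
    · rw [← hlong z x h1 h2 le_rfl hxy.le u hu hc, hx]
    · exact absurd hc (inner_no_cross h3)
  have hcy : ∀ u ∈ U, ∀ g ∈ Ψ u, G.Cross (S.L y) g → g = τ u := by
    intro u hu g hg hc
    rcases (kind' u hu g hg).2 with ⟨z, h1, h2, rfl⟩ | ⟨z, h1, h2, h3, _⟩
    · rw [← hlong z y h1 h2 hxy.le le_rfl u hu hc, hy]
    · exact absurd hc (inner_no_cross h3)
  refine ⟨Ψ, ?_, ?_, hcx, hcy, ?_, ?_⟩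
  · intro u hu
    constructor
    · refine ⟨x, le_rfl, hxy, Or.inl ?_⟩
      rw [hx]
      exact (S.s x).self _ (h.smem u hu)
    · refine ⟨y - 1, by omega, by omega, Or.inr ?_⟩
      have h1 := (S.s (y - 1)).self' (τ u) (by
        rw [show y - 1 + 1 = y by omega]
        exact h.tmem u hu)
      rw [show st (y - 1 + 1) u = τ u by rw [show y - 1 + 1 = y by omega, hy]]
      exact h1
  · intro u hu g hg
    obtain ⟨hE, hk⟩ := kind' u hu g hg
    refine ⟨hE, ?_⟩
    by_cases c1 : G.Cross (S.L x) g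
    · exact Or.inl (hcx u hu g hg c1)
    · by_cases c2 : G.Cross (S.L y) g
      · exact Or.inr (Or.inl (hcy u hu g hg c2))
      · right
        right
        rcases hk with ⟨z, h1, h2, rfl⟩ | ⟨z, h1, h2, h3, _⟩
        · have hcz : G.Cross (S.L z) (st z u) := (G.mem_bd.1 (hmem z h1 h2 u hu)).2
          have m1 := S.L_mono h1
          have m2 := S.L_mono h2
          unfold Gr.Cross at *
          unfold Gr.Inner
          simp only [Finset.mem_sdiff]
          rcases hcz with ⟨a1, a2⟩ | ⟨a1, a2⟩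
          · have b1 : G.b (st z u) ∉ S.L x := fun h' => a2 (m1 h')
            have b2 : G.a (st z u) ∉ S.L x := fun h' => c1 (Or.inl ⟨h', b1⟩)
            have b3 : G.a (st z u) ∈ S.L y := m2 a1
            have b4 : G.b (st z u) ∈ S.L y := by
              by_contra h'
              exact c2 (Or.inl ⟨b3, h'⟩)
            exact ⟨⟨b3, b2⟩, b4, b1⟩
          · have b1 : G.a (st z u) ∉ S.L x := fun h' => a1 (m1 h')
            have b2 : G.b (st z u) ∉ S.L x := fun h' => c1 (Or.inr ⟨b1, h'⟩)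
            have b3 : G.b (st z u) ∈ S.L y := m2 a2
            have b4 : G.a (st z u) ∈ S.L y := by
              by_contra h'
              exact c2 (Or.inr ⟨h', b3⟩)
            exact ⟨⟨b4, b1⟩, b3, b2⟩
        · obtain ⟨h4, h5⟩ := h3
          rw [Finset.mem_sdiff] at h4 h5
          have m1 := S.L_mono h1
          have m2 := S.L_mono (show z + 1 ≤ y by omega)
          exact ⟨Finset.mem_sdiff.2 ⟨m2 h4.1, fun h' => h4.2 (m1 h')⟩,
            Finset.mem_sdiff.2 ⟨m2 h5.1, fun h' => h5.2 (m1 h')⟩⟩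
  · intro u hu a c ha hc
    have key : ∀ n, x + n ≤ y → ∀ w, G.Inc (st (x + n) u) w → G.Conn (Ψ u) a w := by
      intro n
      induction n with
      | zero =>
        intro _ w hw
        refine conn_edge (e := σ u) ⟨x, le_rfl, hxy, Or.inl ?_⟩ ha ?_
        · rw [hx]
          exact (S.s x).self _ (h.smem u hu)
        · rw [Nat.add_zero, hx] at hw
          exact hw
      | succ n ih =>
        intro hn w hw
        have h1 : x ≤ x + n := by omega
        have h2 : x + n < y := by omega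
        obtain ⟨v, hv⟩ : ∃ v, G.Inc (st (x + n) u) v := ⟨_, Or.inl rfl⟩
        refine (ih (by omega) v hv).trans ?_
        by_cases hgo : S.Go (x + n) (st (x + n) u)
        · obtain ⟨f, hf⟩ := hgo
          have h3 := (hstp (x + n) h1 h2).go u hu f hf
          rw [← h3] at hf
          refine ((S.s (x + n)).connT _ _ hf v w hv hw).mono ?_
          exact fun g hg => ⟨x + n, h1, h2, Or.inl hg⟩
        · have h3 := (hstp (x + n) h1 h2).hub u hu hgo
          have h4 := (S.s (x + n)).conn _ (hmem (x + n) h1 h2.le u hu)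
            (fun f hf => hgo ⟨f, hf⟩) v hv
          have h5 := (S.s (x + n)).conn' _ (hmem (x + n + 1) (by omega) h2 u hu)
            (fun e he => h3 ⟨e, he⟩) w hw
          have s1 : (S.s (x + n)).P (st (x + n) u) ⊆ Ψ u := fun g hg => ⟨x + n, h1, h2, Or.inl hg⟩
          have s2 : (S.s (x + n)).P' (st (x + n + 1) u) ⊆ Ψ u :=
            fun g hg => ⟨x + n, h1, h2, Or.inr hg⟩
          exact (h4.mono s1).trans (h5.mono s2).symm
    refine key (y - x) (by omega) c ?_
    rw [show x + (y - x) = y by omega, hy]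
    exact hc
  · intro u hu u' hu' huu
    rw [Set.disjoint_left]
    intro g hg hg'
    rcases (kind' u hu g hg).2 with ⟨z, h1, h2, h3⟩ | ⟨z, h1, h2, h3, h4⟩ <;>
      rcases (kind' u' hu' g hg').2 with ⟨z', k1, k2, k3⟩ | ⟨z', k1, k2, k3, k4⟩
    · have c1 : G.Cross (S.L z) (st z' u') := by
        rw [← k3, h3]
        exact (G.mem_bd.1 (hmem z h1 h2 u hu)).2
      have h5 := hlong z' z k1 k2 h1 h2 u' hu' c1
      rw [← k3, h3] at h5
      exact huu (hinj z h1 h2 u hu u' hu' h5.symm)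
    · rw [h3] at k3
      exact inner_no_cross k3 (G.mem_bd.1 (hmem z h1 h2 u hu)).2
    · rw [k3] at h3
      exact inner_no_cross h3 (G.mem_bd.1 (hmem z' k1 k2 u' hu')).2
    · have hzz : z = z' := by
        by_contra hne
        have a1 := (Finset.mem_sdiff.1 h3.1)
        have b1 := (Finset.mem_sdiff.1 k3.1)
        rcases Nat.lt_or_gt_of_ne hne with hlt | hlt
        · exact b1.2 (S.L_mono (show z + 1 ≤ z' by omega) a1.1)
        · exact a1.2 (S.L_mono (show z' + 1 ≤ z by omega) b1.1)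
      subst hzz
      have n1 : st z u ≠ st z u' := fun h' => huu (hinj z h1 h2.le u hu u' hu' h')
      have n2 : st (z + 1) u ≠ st (z + 1) u' := fun h' => huu (hinj (z + 1) (by omega) h2 u hu u' hu' h')
      have m1 := hmem z h1 h2.le u hu
      have m2 := hmem z h1 h2.le u' hu'
      have m3 := hmem (z + 1) (by omega) h2 u hu
      have m4 := hmem (z + 1) (by omega) h2 u' hu'
      have t1 : ∀ v ∈ U, ∀ v' ∈ U, v ≠ v' → ¬ (S.s z).thr (st z v) (st (z + 1) v') := by
        intro v hv v' hv' hne ht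
        have h5 := (hstp z h1 h2).go v hv _ ht
        exact hne (hinj (z + 1) (by omega) h2 v hv v' hv' h5)
      rcases h4 with h4 | h4 <;> rcases k4 with k4 | k4
      · exact Set.disjoint_left.1 ((S.s z).disj _ m1 _ m2 n1) h4 k4
      · exact Set.disjoint_left.1 ((S.s z).disjT _ m1 _ m4 (t1 u hu u' hu' huu)) h4 k4
      · exact Set.disjoint_left.1 ((S.s z).disjT _ m2 _ m3 (t1 u' hu' u hu huu.symm)) k4 h4
      · exact Set.disjoint_left.1 ((S.s z).disj' _ m3 _ m4 n2) h4 k4

end LS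

end Pool.Agent.W2411si
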