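import Pool.Agent.W_2411tw_h80.Quo
import Pool.Agent.W_2411c4_h59.Thin

/-! Thin pieces: linked valid families of the quotient; the gap lemma applied to them. -/

set_option autoImplicit false

open Set

namespace Pool.Agent.W2411c4

variable {Q : Type}

open Gr

/-- the data of a partition into solid atoms of bounded order that belong to `W` -/
structure AtD (G : Gr Q) (X0 : Finset ℕ) (At : Finset (Finset ℕ)) (M : ℕ) (W : Set (Pc Q)) :
    Prop where
  part : Part X0 At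
  inW : ∀ A ∈ At, ∃ e : En G A, (⟨G, A, e⟩ : Pc Q) ∈ W
  ord : ∀ A ∈ At, G.d A ≤ M
  solid : ∀ A ∈ At, Solid G A

/-- nodes of linked valid families of quotients -/
structure NdT (Q : Type) (K N M : ℕ) (W : Set (Pc Q)) where
  G : Gr Q
  X0 : Finset ℕ
  At : Finset (Finset ℕ)
  F : Finset (Finset ℕ)
  X : Finset ℕ
  dat : AtD G X0 At M W
  val : Val (quo G At) (reps At) K N F
  lk : Linked (quo G At) F
  hX : X ∈ F

def NdT.sub {K N M : ℕ} {W : Set (Pc Q)} (x : NdT Q K N M W) (Y : Finset ℕ) (h : Y ∈ x.F) :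
    NdT Q K N M W := ⟨x.G, x.X0, x.At, x.F, Y, x.dat, x.val, x.lk, h⟩

def kidsT {K N M : ℕ} {W : Set (Pc Q)} (x : NdT Q K N M W) : Set (NdT Q K N M W) :=
  {z | ∃ (Y : Finset ℕ) (h : IsKid x.F x.X Y), z = x.sub Y h.1}

theorem chain_memT {K N M m : ℕ} {W : Set (Pc Q)} {x z : NdT Q K N M W}
    (h : Ch (fun x => (quo x.G x.At).d x.X) kidsT m x z) :
    ∃ (Y : Finset ℕ) (hY : Y ∈ x.F), z = x.sub Y hY ∧ Y ⊂ x.X ∧
      ∀ M ∈ x.F, Y ⊆ M → M ⊆ x.X → M = Y ∨ M = x.X ∨ m ≤ (quo x.G x.At).d M := by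
  induction h with
  | one hz =>
    obtain ⟨Y, hY, rfl⟩ := hz
    refine ⟨Y, hY.1, rfl, hY.2.1, ?_⟩
    intro M hM hYM hMX
    by_cases hMe : M = x.X
    · exact Or.inr (Or.inl hMe)
    · exact Or.inl (hY.2.2 M hM hYM (Finset.ssubset_iff_subset_ne.2 ⟨hMX, hMe⟩))
  | step _ hm hz ih =>
    obtain ⟨W, hW, rfl, hWX, hall⟩ := ih
    obtain ⟨Y, hY, rfl⟩ := hz
    have hY' : IsKid x.F W Y := hY
    refine ⟨Y, hY'.1, rfl, hY'.2.1.trans hWX, ?_⟩
    intro M hM hYM hMX
    obtain ⟨y, hy⟩ := x.val.ne Y hY'.1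
    rcases lam_sub x.val.lam hM hW (hYM hy) (hY'.2.1.subset hy) with h1 | h1
    · by_cases hMe : M = W
      · right
        right
        rw [hMe]
        exact hm
      · exact Or.inl (hY'.2.2 M hM hYM (Finset.ssubset_iff_subset_ne.2 ⟨h1, hMe⟩))
    · rcases hall M hM h1 hMX with h2 | h2 | h2
      · right
        right
        rw [h2]
        exact hm
      · exact Or.inr (Or.inl h2)
      · exact Or.inr (Or.inr h2)

/-- the piece of a node with an enumeration -/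
noncomputable def pcT {K N M : ℕ} {W : Set (Pc Q)} (p : (x : NdT Q K N M W) × En x.G (lift x.At x.X)) : Pc Q :=
  ⟨p.1.G, lift p.1.At p.1.X, p.2⟩

/-- number of parts -/
def cntT (N M : ℕ) : ℕ := N + (N + 2 * (N * M))

theorem nodeT_mem [Preorder Q] {K N M : ℕ} {W : Set (Pc Q)} (x : NdT Q K N M W)
    (en : En x.G (lift x.At x.X)) (W' : Set (Pc Q))
    (hkid : ∀ Y, IsKid x.F x.X Y → ∃ eY : En x.G (lift x.At Y), (⟨x.G, lift x.At Y, eY⟩ : Pc Q) ∈ W') :
    (⟨x.G, lift x.At x.X, en⟩ : Pc Q) ∈ HubsP 0 (cntT N M * (K + M) + (K + M))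
      (((W ∪ W') ∪ Emp Q) ∪ UnP (cntT N M) (cntT N M * (K + M) + (K + M)) ((W ∪ W') ∪ Emp Q)) := by
  classical
  have hl := x.val.lam
  have hP := x.dat.part
  have hsubR : ∀ Y ∈ x.F, Y ⊆ reps x.At := x.val.sub
  have hnd := x.val.nd x.X x.hX
  have hNP : (NP (quo x.G x.At) x.F x.X).card ≤ N := by omega
  have hBg : (Bag x.F x.X).card ≤ N := by
    have h1 : (Bag x.F x.X).card ≤ (K + 1) * (Bag x.F x.X).card := Nat.le_mul_of_pos_left _ (by omega)
    omega
  have hdL : ∀ Y ∈ x.F, x.G.d (lift x.At Y) ≤ K := by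
    intro Y hY
    rw [← hP.d_quo x.G (hsubR Y hY)]
    exact x.val.ord Y hY
  -- the atoms of the bag and the kids with a boundary edge
  let T1 : Finset (Finset ℕ) := x.At.filter fun A => rp A ∈ Bag x.F x.X
  let B2 : Finset (Finset ℕ) := x.F.filter fun C => IsKid x.F x.X C ∧ (quo x.G x.At).d C ≠ 0
  let B3 : Finset (Finset ℕ) := x.F.filter fun C => IsKid x.F x.X C ∧ (quo x.G x.At).d C = 0
  have hT1 : ∀ A, A ∈ T1 ↔ A ∈ x.At ∧ rp A ∈ Bag x.F x.X := fun A => Finset.mem_filter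
  have hB2 : ∀ A, A ∈ B2 ↔ IsKid x.F x.X A ∧ (quo x.G x.At).d A ≠ 0 := fun A =>
    ⟨fun h => (Finset.mem_filter.1 h).2, fun h => Finset.mem_filter.2 ⟨h.1.1, h⟩⟩
  have hB3 : ∀ A, A ∈ B3 ↔ IsKid x.F x.X A ∧ (quo x.G x.At).d A = 0 := fun A =>
    ⟨fun h => (Finset.mem_filter.1 h).2, fun h => Finset.mem_filter.2 ⟨h.1.1, h⟩⟩
  have hT1c : T1.card ≤ N := by
    refine (Finset.card_le_card_of_injOn rp (fun A hA => ((hT1 A).1 hA).2) ?_).trans hBg
    intro A hA B hB hAB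
    exact hP.rp_inj ((hT1 A).1 hA).1 ((hT1 B).1 hB).1 hAB
  have hB2c : B2.card ≤ N + 2 * (N * M) := by
    let D : Finset ℕ := (Bag x.F x.X).biUnion fun v => (quo x.G x.At).bd {v}
    have hDc : D.card ≤ N * M := by
      refine (Finset.card_biUnion_le_card_mul _ _ M ?_).trans (Nat.mul_le_mul_right _ hBg)
      intro v hv
      obtain ⟨A, hA, rfl⟩ := mem_reps.1 (hsubR x.X x.hX (mem_bag.1 hv).1)
      have h1 : ({rp A} : Finset ℕ) ⊆ reps x.At := by
        rw [Finset.singleton_subset_iff]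
        exact mem_reps.2 ⟨A, hA, rfl⟩
      show (quo x.G x.At).d {rp A} ≤ M
      rw [hP.d_quo x.G h1, hP.lift_one hA]
      exact x.dat.ord A hA
    let B4 : Finset (Finset ℕ) := B2.filter fun C => ∃ e ∈ D, (quo x.G x.At).Touch C e
    have hB4 : B4.card ≤ 2 * D.card := touched_count (G := quo x.G x.At) hl (X := x.X) D B4
      (fun C hC => ⟨((hB2 C).1 (Finset.mem_filter.1 hC).1).1, (Finset.mem_filter.1 hC).2⟩)
    have h1 : B2 ⊆ NP (quo x.G x.At) x.F x.X ∪ B4 := by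
      intro C hC
      obtain ⟨h2, h3⟩ := (hB2 C).1 hC
      by_cases hp : Priv (quo x.G x.At) x.F x.X C
      · apply Finset.mem_union_right
        refine Finset.mem_filter.2 ⟨hC, ?_⟩
        have h4 : ((quo x.G x.At).bd C).Nonempty := by
          rw [Finset.nonempty_iff_ne_empty]
          intro h5
          apply h3
          unfold Gr.d
          rw [h5]
          rfl
        obtain ⟨e, he⟩ := h4
        obtain ⟨heE, hcr⟩ := Gr.mem_bd _ |>.1 he
        obtain ⟨p, q, hp1, hpC, hq1, hqC⟩ := cross_ends hcr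
        have hqB := (hp e heE hcr.touch q hq1).resolve_left hqC
        refine ⟨e, Finset.mem_biUnion.2 ⟨q, hqB, ?_⟩, hcr.touch⟩
        refine (Gr.mem_bd _).2 ⟨heE, cross_of hq1 (Finset.mem_singleton_self q) hp1 ?_⟩
        intro h5
        rw [Finset.mem_singleton.1 h5] at hpC
        exact hqC hpC
      · exact Finset.mem_union_left _ (mem_np.2 ⟨h2, hp⟩)
    have h2 := (Finset.card_le_card h1).trans (Finset.card_union_le _ _)
    omega
  let S1 : Finset (Finset ℕ) := T1 ∪ B2.image (lift x.At)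
  let S2 : Finset (Finset ℕ) := B3.image (lift x.At)
  -- kinds
  have hkindS : ∀ A, A ∈ S1 ∪ S2 → (A ∈ x.At ∧ rp A ∈ Bag x.F x.X) ∨
      ∃ C, IsKid x.F x.X C ∧ A = lift x.At C := by
    intro A hA
    rcases Finset.mem_union.1 hA with h | h
    · rcases Finset.mem_union.1 h with h | h
      · exact Or.inl ((hT1 A).1 h)
      · obtain ⟨C, hC, rfl⟩ := Finset.mem_image.1 h
        exact Or.inr ⟨C, ((hB2 C).1 hC).1, rfl⟩
    · obtain ⟨C, hC, rfl⟩ := Finset.mem_image.1 h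
      exact Or.inr ⟨C, ((hB3 C).1 hC).1, rfl⟩
  have hmemK : ∀ C, IsKid x.F x.X C → ∀ z, z ∈ lift x.At C → z ∈ x.X0 ∧ rho x.At z ∈ C := by
    intro C hC z hz
    exact ⟨hP.lift_sub hz, (hP.mem_lift' (hsubR C hC.1)).1 hz⟩
  have hdisj : ∀ A ∈ S1 ∪ S2, ∀ B ∈ S1 ∪ S2, A ≠ B → Disjoint A B := by
    intro A hA B hB hAB
    rw [Finset.disjoint_left]
    intro z hzA hzB
    rcases hkindS A hA with ⟨h1, h2⟩ | ⟨C, hC, rfl⟩ <;> rcases hkindS B hB with ⟨h3, h4⟩ | ⟨C', hC', rfl⟩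
    · exact hAB (hP.uniq A h1 B h3 z hzA hzB)
    · have h5 := (hmemK C' hC' z hzB).2
      rw [hP.rho_eq h1 hzA] at h5
      exact kid_not_bag hC' h5 h2
    · have h5 := (hmemK C hC z hzA).2
      rw [hP.rho_eq h3 hzB] at h5
      exact kid_not_bag hC h5 h4
    · have h5 := (hmemK C hC z hzA).2
      have h6 := (hmemK C' hC' z hzB).2
      exact hAB (congrArg (lift x.At) (kid_eq hl hC hC' h5 h6))
  have hcov : ∀ z, z ∈ lift x.At x.X ↔ ∃ A ∈ S1 ∪ S2, z ∈ A := by
    intro z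
    constructor
    · intro hz
      obtain ⟨A, hA, hAX, hzA⟩ := mem_lift.1 hz
      by_cases hb : rp A ∈ Bag x.F x.X
      · exact ⟨A, Finset.mem_union_left _ (Finset.mem_union_left _ ((hT1 A).2 ⟨hA, hb⟩)), hzA⟩
      · have h1 : ∃ N' ∈ x.F, N' ⊂ x.X ∧ rp A ∈ N' := by
          by_contra hcon
          push Not at hcon
          exact hb (mem_bag.2 ⟨hAX, hcon⟩)
        obtain ⟨N', hN', hNX, hxN⟩ := h1
        obtain ⟨C, hC, hNC⟩ := exists_kid hN' hNX
        refine ⟨lift x.At C, ?_, mem_lift.2 ⟨A, hA, hNC hxN, hzA⟩⟩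
        by_cases h0 : (quo x.G x.At).d C = 0
        · exact Finset.mem_union_right _ (Finset.mem_image_of_mem _ ((hB3 C).2 ⟨hC, h0⟩))
        · exact Finset.mem_union_left _ (Finset.mem_union_right _
            (Finset.mem_image_of_mem _ ((hB2 C).2 ⟨hC, h0⟩)))
    · rintro ⟨A, hA, hz⟩
      rcases hkindS A hA with ⟨h1, h2⟩ | ⟨C, hC, rfl⟩
      · exact mem_lift.2 ⟨A, h1, (mem_bag.1 h2).1, hz⟩
      · exact lift_mono hC.2.1.subset hz
  refine free_mem S1 S2 (cntT N M) (K + M) hcov ?_ hdisj ?_ ?_ ?_ en ?_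
  · have h1 := Finset.card_union_le T1 (B2.image (lift x.At))
    have h2 : (B2.image (lift x.At)).card ≤ B2.card := Finset.card_image_le
    unfold cntT
    show (T1 ∪ B2.image (lift x.At)).card ≤ _
    omega
  · intro A hA hA'
    obtain ⟨C', hC', rfl⟩ := Finset.mem_image.1 hA'
    obtain ⟨h1, h2⟩ := (hB3 C').1 hC'
    obtain ⟨w, hw⟩ := x.val.ne C' h1.1
    obtain ⟨A', hA', rfl⟩ := mem_reps.1 (hsubR C' h1.1 hw)
    have hw' : rp A' ∈ lift x.At C' := mem_lift.2 ⟨A', hA', hw, hP.rp_in hA'⟩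
    rcases Finset.mem_union.1 hA with h | h
    · obtain ⟨h3, h4⟩ := (hT1 _).1 h
      have h5 := hP.uniq _ h3 A' hA' (rp A') hw' (hP.rp_in hA')
      rw [h5] at h4
      exact kid_not_bag h1 hw h4
    · obtain ⟨C, hC, h3⟩ := Finset.mem_image.1 h
      obtain ⟨h4, h5⟩ := (hB2 C).1 hC
      rw [← h3] at hw'
      have h6 := (hmemK C h4 _ hw').2
      rw [hP.rho_eq hA' (hP.rp_in hA')] at h6
      rw [kid_eq hl h4 h1 h6 hw] at h5
      exact h5 h2
  · intro A hA
    rcases Finset.mem_union.1 hA with h | h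
    · obtain ⟨h1, _⟩ := (hT1 A).1 h
      obtain ⟨e, he⟩ := x.dat.inW A h1
      exact ⟨(x.dat.ord A h1).trans (Nat.le_add_left _ _), e, Or.inl he⟩
    · obtain ⟨C, hC, rfl⟩ := Finset.mem_image.1 h
      have h1 := ((hB2 C).1 hC).1
      obtain ⟨e, he⟩ := hkid C h1
      exact ⟨(hdL C h1.1).trans (Nat.le_add_right _ _), e, Or.inr he⟩
  · intro A hA
    obtain ⟨C, hC, rfl⟩ := Finset.mem_image.1 hA
    obtain ⟨h1, h2⟩ := (hB3 C).1 hC
    obtain ⟨e, he⟩ := hkid C h1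
    refine ⟨?_, e, Or.inr he⟩
    rw [← hP.d_quo x.G (hsubR C h1.1)]
    exact h2
  · rw [En.n_eq]
    exact (hdL x.X x.hX).trans (Nat.le_add_right _ _)

theorem nodesT_pwo [Preorder Q] (K N M : ℕ)
    {W : Set (Pc Q)} (hW0 : W.PartiallyWellOrderedOn Rp) :
    ∀ f : ℕ → ((x : NdT Q K N M W) × En x.G (lift x.At x.X)), ∃ m n, m < n ∧
      Rp (pcT (f m)) (pcT (f n)) := by
  let R : ((x : NdT Q K N M W) × En x.G (lift x.At x.X)) →
      ((x : NdT Q K N M W) × En x.G (lift x.At x.X)) → Prop := fun p q => Rp (pcT p) (pcT q)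
  have : IsPreorder ((x : NdT Q K N M W) × En x.G (lift x.At x.X)) R :=
    { refl := fun p => Rp.refl _
      trans := fun _ _ _ h h' => Rp.trans h h' }
  refine gap (R := R) (fun p => p.1) (fun x => ⟨⟨x, mkEn x.G (lift x.At x.X)⟩, rfl⟩)
    (fun x => (quo x.G x.At).d x.X) (fun x => x.X.card) kidsT K (fun x => x.val.ord x.X x.hX) ?_ ?_ ?_
  · rintro x z ⟨Y, hY, rfl⟩
    exact Finset.card_lt_card hY.2.1
  · intro W' hW'
    have hW'' : (pcT '' W').PartiallyWellOrderedOn Rp :=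
      hW'.image_of_monotone_on fun _ _ _ _ h => h
    have hall := free_pwo (cntT N M) (K + M) (hW0.union hW'')
    rw [partiallyWellOrderedOn_iff_exists_lt] at hall ⊢
    intro f hf
    obtain ⟨m, n, hmn, hr⟩ := hall (fun i => pcT (f i)) (by
      intro i
      refine nodeT_mem (f i).1 (f i).2 (pcT '' W') ?_
      intro Y hY
      obtain ⟨q, hqW, hq⟩ := hf i ((f i).1.sub Y hY.1) ⟨Y, hY, rfl⟩
      obtain ⟨q1, q2⟩ := q
      simp only at hq
      subst hq
      exact ⟨q2, ⟨_, hqW, rfl⟩⟩)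
    exact ⟨m, n, hmn, hr⟩
  · intro p z hch hlab
    obtain ⟨Y, hY, rfl, hYX, hall⟩ := chain_memT hch
    have hP := p.1.dat.part
    have hYR := p.1.val.sub Y hY
    have hXR := p.1.val.sub p.1.X p.1.hX
    have hd' : (quo p.1.G p.1.At).d Y = (quo p.1.G p.1.At).d p.1.X := hlab
    have hd : p.1.G.d (lift p.1.At Y) = p.1.G.d (lift p.1.At p.1.X) := by
      rw [← hP.d_quo p.1.G hYR, ← hP.d_quo p.1.G hXR]
      exact hd'
    have hat : ∀ M : Finset ℕ, ∀ A ∈ p.1.At, A ⊆ lift p.1.At M ∨ Disjoint A (lift p.1.At M) := by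
      intro M A hA
      by_cases h : rp A ∈ M
      · exact Or.inl fun x hx => mem_lift.2 ⟨A, hA, h, hx⟩
      · right
        rw [Finset.disjoint_left]
        intro x hx hx'
        obtain ⟨B, hB, h1, h2⟩ := mem_lift.1 hx'
        rw [hP.uniq A hA B hB x hx h2] at h
        exact h h1
    obtain ⟨oY, hoY⟩ := link (lift_mono hYX.subset) p.2 hd (by
      intro Z hYZ hZX
      obtain ⟨Z', h1, h2, h3, h4, _⟩ := round_set p.1.dat.solid hP.uniq (hat Y) (hat p.1.X) hYZ hZX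
      -- `Z'` is a lift
      let M' : Finset ℕ := (reps p.1.At).filter fun v => v ∈ Z'
      have hM'R : M' ⊆ reps p.1.At := Finset.filter_subset _ _
      have hmem : ∀ A ∈ p.1.At, (rp A ∈ M' ↔ A ⊆ Z') := by
        intro A hA
        constructor
        · intro h5
          rcases h4 A hA with h6 | h6
          · exact h6
          · exact absurd (Finset.mem_filter.1 h5).2 (Finset.disjoint_left.1 h6 (hP.rp_in hA))
        · intro h5
          exact Finset.mem_filter.2 ⟨mem_reps.2 ⟨A, hA, rfl⟩, h5 (hP.rp_in hA)⟩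
      have hZ' : lift p.1.At M' = Z' := by
        ext z
        rw [mem_lift]
        constructor
        · rintro ⟨A, hA, h5, h6⟩
          exact (hmem A hA).1 h5 h6
        · intro hz
          obtain ⟨A, hA, h5, h6⟩ := mem_lift.1 (h2 hz)
          refine ⟨A, hA, (hmem A hA).2 ?_, h6⟩
          rcases h4 A hA with h7 | h7
          · exact h7
          · exact absurd hz (Finset.disjoint_left.1 h7 h6)
      have hYM : Y ⊆ M' := by
        intro v hv
        obtain ⟨A, hA, rfl⟩ := mem_reps.1 (hYR hv)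
        refine (hmem A hA).2 fun z hz => h1 (mem_lift.2 ⟨A, hA, hv, hz⟩)
      have hMX : M' ⊆ p.1.X := by
        intro v hv
        obtain ⟨A, hA, rfl⟩ := mem_reps.1 (hM'R hv)
        obtain ⟨B, hB, h5, h6⟩ := mem_lift.1 (h2 ((hmem A hA).1 hv (hP.rp_in hA)))
        rw [hP.uniq A hA B hB _ (hP.rp_in hA) h6]
        exact h5
      obtain ⟨N', hN', hYN, hNX, hNd⟩ := p.1.lk Y hY p.1.X p.1.hX M' hYM hMX
      rw [hP.d_quo p.1.G hM'R, hZ'] at hNd
      rw [← hP.d_quo p.1.G hYR]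
      rcases hall N' hN' hYN hNX with h5 | h5 | h5
      · rw [h5] at hNd
        exact hNd.trans h3
      · rw [h5] at hNd
        exact hd'.le.trans (hNd.trans h3)
      · exact hd'.le.trans (h5.trans (hNd.trans h3)))
    exact ⟨⟨p.1.sub Y hY, oY⟩, rfl, hoY⟩

/-- pieces whose quotient by atoms of `W` has a valid family -/
def ThinV (K N M : ℕ) (W : Set (Pc Q)) : Set (Pc Q) :=
  {P | ∃ At F, AtD P.G P.X At M W ∧ Val (quo P.G At) (reps At) K N F}

theorem thinV_pwo [Preorder Q] (K N M : ℕ)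
    {W : Set (Pc Q)} (hW : W.PartiallyWellOrderedOn Rp) :
    (ThinV K N M W).PartiallyWellOrderedOn Rp := by
  rw [partiallyWellOrderedOn_iff_exists_lt]
  intro f hf
  have h : ∀ n, ∃ At F, AtD (f n).G (f n).X At M W ∧
      Val (quo (f n).G At) (reps At) K N F ∧ Linked (quo (f n).G At) F := by
    intro n
    obtain ⟨At, F, h1, h2⟩ := hf n
    obtain ⟨F', h3, h4⟩ := exists_linked ⟨F, h2⟩
    exact ⟨At, F', h1, h3, h4⟩
  choose At F h1 h2 h3 using h
  have hX : ∀ n, lift (At n) (reps (At n)) = (f n).X := fun n => (h1 n).part.lift_reps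
  have hen : ∀ n, ∃ en : En (f n).G (lift (At n) (reps (At n))),
      (⟨(f n).G, lift (At n) (reps (At n)), en⟩ : Pc Q) = f n := by
    intro n
    have h4 := hX n
    rcases hfn : f n with ⟨G, X, en⟩
    rw [hfn] at h4
    simp only at h4
    subst h4
    exact ⟨en, rfl⟩
  choose en hen' using hen
  obtain ⟨m, n, hmn, hr⟩ := nodesT_pwo K N M hW fun n =>
    ⟨⟨(f n).G, (f n).X, At n, F n, reps (At n), h1 n, h2 n, h3 n, (h2 n).top⟩, en n⟩
  refine ⟨m, n, hmn, ?_⟩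
  have h4 := hen' m
  have h5 := hen' n
  unfold pcT at hr
  rw [← h4, ← h5]
  exact hr

end Pool.Agent.W2411c4
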