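import Pool.Agent.W_2411c4_h59.Gap

/-! Words with labels in `ℕ` between the letters, gap embeddings rooted at both ends. -/

set_option autoImplicit false

open Set Set.PartiallyWellOrderedOn

namespace Pool.Agent.W2411c4

/-- The Nash-Williams principle. -/
theorem nw {P : Type} {R : P → P → Prop} [IsPreorder P R] (sz : P → ℕ) (I : Set P)
    (hstep : ∀ D : Set P, D ⊆ I → D.PartiallyWellOrderedOn R →
      {p | p ∈ I ∧ ∀ q ∈ I, R q p → sz q < sz p → q ∈ D}.PartiallyWellOrderedOn R) :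
    I.PartiallyWellOrderedOn R := by
  rw [iff_not_exists_isMinBadSeq sz]
  rintro ⟨f, ⟨hf, hbad⟩, hmin⟩
  let D : Set P := {q | q ∈ I ∧ ∃ i, R q (f i) ∧ sz q < sz (f i)}
  have hD : D.PartiallyWellOrderedOn R := by
    rw [partiallyWellOrderedOn_iff_exists_lt]
    intro g hg
    by_contra hcon
    push Not at hcon
    choose ix hix using fun n => (hg n).2
    obtain ⟨n0, hn0⟩ : ∃ n0, ∀ n, ix n0 ≤ ix n := by
      have hne : ∃ v, ∃ n, ix n = v := ⟨_, 0, rfl⟩
      classical
      obtain ⟨n0, h0⟩ := Nat.find_spec hne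
      exact ⟨n0, fun n => h0 ▸ Nat.find_min' hne ⟨n, rfl⟩⟩
    refine hmin (ix n0) (fun m => if m < ix n0 then f m else g (n0 + (m - ix n0))) ?_ ?_ ⟨?_, ?_⟩
    · intro m hm
      simp only [if_pos hm]
    · simp only [lt_irrefl, if_false, Nat.sub_self, Nat.add_zero]
      exact (hix n0).2
    · intro m
      by_cases hm : m < ix n0
      · simp only [if_pos hm]
        exact hf m
      · simp only [if_neg hm]
        exact (hg _).1
    · intro m m' hmm
      by_cases hm' : m' < ix n0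
      · have hm : m < ix n0 := hmm.trans hm'
        simp only [if_pos hm, if_pos hm']
        exact hbad m m' hmm
      · by_cases hm : m < ix n0
        · simp only [if_pos hm, if_neg hm']
          intro hr
          have h1 := (hix (n0 + (m' - ix n0))).1
          have h2 := hn0 (n0 + (m' - ix n0))
          exact hbad m _ (hm.trans_le h2) (_root_.trans hr h1)
        · simp only [if_neg hm, if_neg hm']
          exact hcon _ _ (by omega)
  have hall := hstep D (fun q hq => hq.1) hD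
  rw [partiallyWellOrderedOn_iff_exists_lt] at hall
  obtain ⟨m, n, hmn, hr⟩ := hall f fun i => ⟨hf i, fun q hq hqr hqs => ⟨hq, i, hqr, hqs⟩⟩
  exact hbad m n hmn hr

/-- words: letters `z 0, ..., z n` and labels `c 0, ..., c (n-1)` between them -/
structure Wd (α : Type) where
  n : ℕ
  z : ℕ → α
  c : ℕ → ℕ

variable {α : Type}

/-- gap embeddings; `a`: the first letter goes to the first, `b`: the last letter goes to the last -/
structure WEmb (r : α → α → Prop) (a b : Bool) (w w' : Wd α) (φ : ℕ → ℕ) : Prop where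
  le : ∀ i ≤ w.n, φ i ≤ w'.n
  lt : ∀ i < w.n, φ i < φ (i + 1)
  rel : ∀ i ≤ w.n, r (w.z i) (w'.z (φ i))
  gap : ∀ i < w.n, ∀ l, φ i ≤ l → l < φ (i + 1) → w.c i ≤ w'.c l
  fst : a = true → φ 0 = 0
  lst : b = true → φ w.n = w'.n

/-- the relation between words -/
def WR (r : α → α → Prop) (a b : Bool) (w w' : Wd α) : Prop := ∃ φ, WEmb r a b w w' φ

/-- the part before the label `j` -/
def Wd.lf (w : Wd α) (j : ℕ) : Wd α := ⟨j, w.z, w.c⟩

/-- the part after the label `j` -/
def Wd.rg (w : Wd α) (j : ℕ) : Wd α := ⟨w.n - (j + 1), fun i => w.z (j + 1 + i), fun i => w.c (j + 1 + i)⟩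

theorem WEmb.mono {r : α → α → Prop} {a b : Bool} {w w' : Wd α} {φ : ℕ → ℕ} (h : WEmb r a b w w' φ)
    {i j : ℕ} (hij : i ≤ j) (hj : j ≤ w.n) : φ i ≤ φ j := by
  induction j, hij using Nat.le_induction with
  | base => exact le_rfl
  | succ j hij ih => exact (ih (by omega)).trans (h.lt j (by omega)).le

theorem wr_refl (r : α → α → Prop) [IsPreorder α r] (a b : Bool) (w : Wd α) : WR r a b w w := by
  refine ⟨id, ⟨fun i hi => hi, fun i _ => Nat.lt_succ_self i, fun i _ => refl_of r _, ?_, fun _ => rfl,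
    fun _ => rfl⟩⟩
  intro i _ l h1 h2
  have : l = i := by
    simp only [id] at h1 h2
    omega
  rw [this]

theorem wr_trans (r : α → α → Prop) [IsPreorder α r] (a b : Bool) {w w' w'' : Wd α}
    (h : WR r a b w w') (h' : WR r a b w' w'') : WR r a b w w'' := by
  obtain ⟨φ, h⟩ := h
  obtain ⟨ψ, h'⟩ := h'
  refine ⟨fun i => ψ (φ i), ⟨fun i hi => h'.le _ (h.le i hi), ?_, ?_, ?_, ?_, ?_⟩⟩
  · intro i hi
    have h1 := h.lt i hi
    have h2 := h.le (i + 1) (by omega)
    exact (h'.lt (φ i) (by omega)).trans_le (h'.mono h1 h2)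
  · intro i hi
    exact trans_of r (h.rel i hi) (h'.rel _ (h.le i hi))
  · intro i hi l h1 h2
    -- the last `m` with `ψ m ≤ l`
    have hle := h.le (i + 1) (by omega)
    have key : ∀ m, φ i ≤ m → m ≤ φ (i + 1) → l < ψ m → ∃ p, φ i ≤ p ∧ p < m ∧ ψ p ≤ l ∧ l < ψ (p + 1) := by
      intro m hm
      induction m, hm using Nat.le_induction with
      | base =>
        intro _ h3
        exact absurd h1 (not_le.2 h3)
      | succ m hm ih =>
        intro h3 h4
        by_cases h5 : l < ψ m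
        · obtain ⟨p, p1, p2, p3, p4⟩ := ih (by omega) h5
          exact ⟨p, p1, by omega, p3, p4⟩
        · exact ⟨m, hm, by omega, not_lt.1 h5, h4⟩
    obtain ⟨p, p1, p2, p3, p4⟩ := key (φ (i + 1)) (h.lt i hi).le le_rfl h2
    exact (h.gap i hi p p1 p2).trans (h'.gap p (by omega) l p3 p4)
  · intro ha
    show ψ (φ 0) = 0
    rw [h.fst ha, h'.fst ha]
  · intro hb
    show ψ (φ w.n) = w''.n
    rw [h.lst hb, h'.lst hb]

instance wrPre (r : α → α → Prop) [IsPreorder α r] (a b : Bool) : IsPreorder (Wd α) (WR r a b) where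
  refl := wr_refl r a b
  trans := fun _ _ _ => wr_trans r a b

theorem lf_le (r : α → α → Prop) [IsPreorder α r] (a : Bool) {w : Wd α} {j : ℕ} (hj : j < w.n) :
    WR r a false (w.lf j) w := by
  refine ⟨id, ⟨fun i hi => le_trans hi hj.le, fun i _ => Nat.lt_succ_self i, fun i _ => refl_of r _, ?_,
    fun _ => rfl, fun h => by simp at h⟩⟩
  intro i _ l h1 h2
  have : l = i := by
    simp only [id] at h1 h2
    omega
  rw [this]
  exact le_rfl

theorem rg_le (r : α → α → Prop) [IsPreorder α r] (b : Bool) {w : Wd α} {j : ℕ} (hj : j < w.n) :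
    WR r false b (w.rg j) w := by
  refine ⟨fun i => j + 1 + i, ⟨?_, ?_, fun i _ => refl_of r _, ?_, fun h => by simp at h, ?_⟩⟩
  · intro i hi
    simp only [Wd.rg] at hi
    show j + 1 + i ≤ w.n
    omega
  · intro i _
    show j + 1 + i < j + 1 + (i + 1)
    omega
  · intro i _ l h1 h2
    have h1' : j + 1 + i ≤ l := h1
    have h2' : l < j + 1 + (i + 1) := h2
    have : l = j + 1 + i := by omega
    rw [this]
    exact le_rfl
  · intro _
    show j + 1 + (w.n - (j + 1)) = w.n
    omega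

theorem wr_glue {r : α → α → Prop} {a b : Bool} {w w' : Wd α} {j j' : ℕ} (hj : j < w.n)
    (hj' : j' < w'.n) (hm : ∀ l < w'.n, w'.c j' ≤ w'.c l) (hc : w.c j ≤ w'.c j')
    (h1 : WR r a false (w.lf j) (w'.lf j')) (h2 : WR r false b (w.rg j) (w'.rg j')) :
    WR r a b w w' := by
  obtain ⟨φ, h1⟩ := h1
  obtain ⟨ψ, h2⟩ := h2
  have l1 : ∀ i ≤ j, φ i ≤ j' := h1.le
  have l2 : ∀ i ≤ w.n - (j + 1), ψ i ≤ w'.n - (j' + 1) := h2.le
  let χ : ℕ → ℕ := fun i => if i ≤ j then φ i else j' + 1 + ψ (i - (j + 1))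
  have χ1 : ∀ i ≤ j, χ i = φ i := fun i hi => if_pos hi
  have χ2 : ∀ i, j < i → χ i = j' + 1 + ψ (i - (j + 1)) := fun i hi => if_neg (not_le.2 hi)
  have hgap2 : ∀ i, j < i → i < w.n → ∀ l, χ i ≤ l → l < χ (i + 1) → w.c i ≤ w'.c l := by
    intro i hij hi l h3 h4
    rw [χ2 i hij] at h3
    rw [χ2 (i + 1) (by omega), show i + 1 - (j + 1) = (i - (j + 1)) + 1 by omega] at h4
    have h5 := h2.gap (i - (j + 1)) (by show _ < w.n - (j + 1); omega) (l - (j' + 1)) (by omega)
      (by omega)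
    simp only [Wd.rg] at h5
    rw [show j + 1 + (i - (j + 1)) = i by omega, show j' + 1 + (l - (j' + 1)) = l by omega] at h5
    exact h5
  refine ⟨χ, ⟨?_, ?_, ?_, ?_, ?_, ?_⟩⟩
  · intro i hi
    by_cases h : i ≤ j
    · rw [χ1 i h]
      exact (l1 i h).trans hj'.le
    · rw [χ2 i (by omega)]
      have := l2 (i - (j + 1)) (by omega)
      omega
  · intro i hi
    by_cases h : i < j
    · rw [χ1 i h.le, χ1 (i + 1) h]
      exact h1.lt i h
    · by_cases h' : i = j
      · rw [h', χ1 j le_rfl, χ2 (j + 1) (by omega)]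
        have := l1 j le_rfl
        omega
      · rw [χ2 i (by omega), χ2 (i + 1) (by omega),
          show i + 1 - (j + 1) = (i - (j + 1)) + 1 by omega]
        have := h2.lt (i - (j + 1)) (by show _ < w.n - (j + 1); omega)
        omega
  · intro i hi
    by_cases h : i ≤ j
    · rw [χ1 i h]
      exact h1.rel i h
    · rw [χ2 i (by omega)]
      have h5 := h2.rel (i - (j + 1)) (by show _ ≤ w.n - (j + 1); omega)
      simp only [Wd.rg] at h5
      rw [show j + 1 + (i - (j + 1)) = i by omega] at h5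
      exact h5
  · intro i hi l h3 h4
    by_cases h : i < j
    · rw [χ1 i h.le] at h3
      rw [χ1 (i + 1) h] at h4
      exact h1.gap i h l h3 h4
    · by_cases h' : i = j
      · rw [h']
        refine hc.trans (hm l ?_)
        rw [h', χ2 (j + 1) (by omega)] at h4
        have := l2 (j + 1 - (j + 1)) (by omega)
        omega
      · exact hgap2 i (by omega) hi l h3 h4
  · intro ha
    rw [χ1 0 (Nat.zero_le _)]
    exact h1.fst ha
  · intro hb
    rw [χ2 w.n hj]
    have := h2.lst hb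
    simp only [Wd.rg] at this
    rw [this]
    omega

theorem exists_min_label (w : Wd α) (hn : 0 < w.n) : ∃ j < w.n, ∀ l < w.n, w.c j ≤ w.c l := by
  obtain ⟨j, hj, hm⟩ := Finset.exists_min_image (Finset.range w.n) w.c ⟨0, Finset.mem_range.2 hn⟩
  exact ⟨j, Finset.mem_range.1 hj, fun l hl => hm l (Finset.mem_range.2 hl)⟩

/-- words with letters in `S` -/
def WdS (S : Set α) : Set (Wd α) := {w | ∀ i ≤ w.n, w.z i ∈ S}

/-- words whose two parts at a least label are in given sets -/
theorem split_pwo {r : α → α → Prop} [IsPreorder α r] {S : Set α} (hS : S.PartiallyWellOrderedOn r)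
    (a b : Bool) {D1 D2 : Set (Wd α)} (h1 : D1.PartiallyWellOrderedOn (WR r a false))
    (h2 : D2.PartiallyWellOrderedOn (WR r false b)) :
    {w : Wd α | w ∈ WdS S ∧ ∀ j < w.n, (∀ l < w.n, w.c j ≤ w.c l) → w.lf j ∈ D1 ∧
      w.rg j ∈ D2}.PartiallyWellOrderedOn (WR r a b) := by
  classical
  have hA : {w : Wd α | w ∈ WdS S ∧ w.n = 0}.PartiallyWellOrderedOn (WR r a b) := by
    rw [partiallyWellOrderedOn_iff_exists_lt]
    intro f hf
    obtain ⟨m, n, hmn, hr⟩ := hS.exists_lt (f := fun i => (f i).z 0) fun i => (hf i).1 0 (Nat.zero_le _)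
    have h0 : (f m).n = 0 := (hf m).2
    have h0' : (f n).n = 0 := (hf n).2
    refine ⟨m, n, hmn, fun _ => 0, ⟨fun _ _ => Nat.zero_le _, fun i hi => by omega, ?_, fun i hi => by
      omega, fun _ => rfl, fun _ => h0'.symm⟩⟩
    intro i hi
    have : i = 0 := by omega
    rw [this]
    exact hr
  have hN : (Set.univ : Set ℕ).PartiallyWellOrderedOn (fun x y => x ≤ y) :=
    Set.partiallyWellOrderedOn_of_wellQuasiOrdered wellQuasiOrdered_le _
  have hB : {w : Wd α | w ∈ WdS S ∧ 0 < w.n ∧ ∀ j < w.n, (∀ l < w.n, w.c j ≤ w.c l) → w.lf j ∈ D1 ∧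
      w.rg j ∈ D2}.PartiallyWellOrderedOn (WR r a b) := by
    rw [partiallyWellOrderedOn_iff_exists_lt]
    intro f hf
    choose j hj hm using fun i => exists_min_label (f i) (hf i).2.1
    obtain ⟨m, n, hmn, hr1, hr2, hr3⟩ := (h1.prod (h2.prod hN)).exists_lt
      (f := fun i => ((f i).lf (j i), ((f i).rg (j i), (f i).c (j i))))
      (fun i => ⟨((hf i).2.2 (j i) (hj i) (hm i)).1, ((hf i).2.2 (j i) (hj i) (hm i)).2,
        Set.mem_univ _⟩)
    exact ⟨m, n, hmn, wr_glue (hj m) (hj n) (hm n) hr3 hr1 hr2⟩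
  refine (hA.union hB).mono ?_
  rintro w ⟨hw, hw'⟩
  rcases Nat.eq_zero_or_pos w.n with h | h
  · exact Or.inl ⟨hw, h⟩
  · exact Or.inr ⟨hw, h, hw'⟩

theorem lf_mem {S : Set α} {w : Wd α} (hw : w ∈ WdS S) {j : ℕ} (hj : j < w.n) : w.lf j ∈ WdS S :=
  fun i hi => hw i (le_trans hi hj.le)

theorem rg_mem {S : Set α} {w : Wd α} (hw : w ∈ WdS S) {j : ℕ} (hj : j < w.n) : w.rg j ∈ WdS S := by
  intro i hi
  simp only [Wd.rg] at hi ⊢
  exact hw _ (by omega)

/-- **Words theorem.** Words with letters in a well-quasi-ordered set and labels in `ℕ` are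
well-quasi-ordered by gap embeddings that fix both ends. -/
theorem words_pwo {r : α → α → Prop} [IsPreorder α r] {S : Set α}
    (hS : S.PartiallyWellOrderedOn r) (a b : Bool) : (WdS S).PartiallyWellOrderedOn (WR r a b) := by
  have ff : (WdS S).PartiallyWellOrderedOn (WR r false false) := by
    refine nw (fun w => w.n) (WdS S) fun D _ hD => (split_pwo hS false false hD hD).mono ?_
    rintro w ⟨hw, hq⟩
    refine ⟨hw, fun j hj _ => ⟨hq _ (lf_mem hw hj) (lf_le r false hj) hj, ?_⟩⟩
    exact hq _ (rg_mem hw hj) (rg_le r false hj) (by simp only [Wd.rg]; omega)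
  have tf : (WdS S).PartiallyWellOrderedOn (WR r true false) := by
    refine nw (fun w => w.n) (WdS S) fun D _ hD => (split_pwo hS true false hD ff).mono ?_
    rintro w ⟨hw, hq⟩
    exact ⟨hw, fun j hj _ => ⟨hq _ (lf_mem hw hj) (lf_le r true hj) hj, rg_mem hw hj⟩⟩
  have ft : (WdS S).PartiallyWellOrderedOn (WR r false true) := by
    refine nw (fun w => w.n) (WdS S) fun D _ hD => (split_pwo hS false true ff hD).mono ?_
    rintro w ⟨hw, hq⟩
    refine ⟨hw, fun j hj _ => ⟨lf_mem hw hj, hq _ (rg_mem hw hj) (rg_le r true hj) ?_⟩⟩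
    simp only [Wd.rg]
    omega
  have tt : (WdS S).PartiallyWellOrderedOn (WR r true true) := by
    refine (split_pwo hS true true tf ft).mono ?_
    intro w hw
    exact ⟨hw, fun j hj _ => ⟨lf_mem hw hj, rg_mem hw hj⟩⟩
  rcases a with _ | _ <;> rcases b with _ | _
  · exact ff
  · exact ft
  · exact tf
  · exact tt

end Pool.Agent.W2411c4
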